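import Pool.Agent.H66.L.S8.Y330.F.D6
import Pool.Agent.H66.L.S8.Y330.E.A2

set_option autoImplicit false

open Filter Topology Set Metric
open scoped InnerProductSpace

namespace Pool.Agent.Y330.E

open Pool.Agent.H789R2.AN Pool.Agent.Y330.G Pool.Agent.H721R2 Pool.Agent.Y330.F

open LF (sc)

variable {X : Type*} [MetricSpace X] {E : Type*} [NormedAddCommGroup E] [InnerProductSpace ℝ E]
  {G : Type*} [AddCommGroup G]

/-- Wall data together with a point of finite orbit and its multipliers. -/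
structure PQ (act : G → X ≃ₜ X) (e : X → E) (T : X → Submodule ℝ E) (B : G → X → E →ₗ[ℝ] E)
    (S S' : HypSys X E) (a a' : G) (Fm Fp : X → Submodule ℝ E) (p : X) (N : ℕ) (τ : G →+ ℝ)
    (c : ℝ) (u n : E) : Prop where
  fd : FD act e T B S S' a a' Fm Fp
  hN : 1 ≤ N
  fix : ∀ g, act (N • g) p = p
  um : u ∈ Fm p
  u0 : u ≠ 0
  mulm : ∀ g, ∀ v ∈ Fm p, B (N • g) p v = Real.exp (-τ g) • v
  np : n ∈ Fp p
  n1 : ‖n‖ = 1
  mulp : ∀ g, ∀ v ∈ Fp p, B (N • g) p v = Real.exp (c * τ g) • v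
  ta : 0 < τ a
  ta' : τ a' < 0

namespace PQ

variable {act : G → X ≃ₜ X} {e : X → E} {T : X → Submodule ℝ E} {B : G → X → E →ₗ[ℝ] E}
  {S S' : HypSys X E} {a a' : G} {Fm Fp : X → Submodule ℝ E} {p : X} {N : ℕ} {τ : G →+ ℝ}
  {c : ℝ} {u n : E} {ε₀ C Λ : ℝ}

theorem zz_shift [CompactSpace X] [FiniteDimensional ℝ E]
    (P : PQ act e T B S S' a a' Fm Fp p N τ c u n)
    (L : LF (act a) (act a').symm e Fm (B a) ε₀ C Λ) (g : G) (t : ℝ) :
    act (N • g) (zz act e B a a' (sc ε₀ C Λ) p u t) =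
      zz act e B a a' (sc ε₀ C Λ) p u (t + τ g) := by
  obtain ⟨M, Q⟩ := P.fd.sa.eqv P.fd.mT P.fd.im (c := act a) (c' := (act a').symm) (a := a)
    (a' := -a') (fun x => rfl) (fun x => (P.fd.sa.neg a' x).symm) (fun x v _ => rfl)
    L.C_pos (N • g) (D := B a)
  unfold zz
  rw [← L.YY_map Q P.um P.u0, P.fix, P.mulm g u P.um,
    L.YY_smul P.um P.u0 (Real.exp_pos _).ne', ← Real.exp_add]
  congr 2
  ring

theorem zz_cont [CompactSpace X] (P : PQ act e T B S S' a a' Fm Fp p N τ c u n)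
    (L : LF (act a) (act a').symm e Fm (B a) ε₀ C Λ) :
    Continuous (zz act e B a a' (sc ε₀ C Λ) p u) := by
  rw [continuous_iff_continuousAt]
  intro t
  exact L.YY_tendsto tendsto_const_nhds tendsto_const_nhds
    ((Real.continuous_exp.comp continuous_neg).tendsto t) (Eventually.of_forall fun _ => P.um)
    P.um P.u0

theorem zz_leaf [CompactSpace X] (P : PQ act e T B S S' a a' Fm Fp p N τ c u n)
    (L : LF (act a) (act a').symm e Fm (B a) ε₀ C Λ) (t : ℝ) :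
    LW (act a) (act a').symm (sc ε₀ C Λ) p (zz act e B a a' (sc ε₀ C Λ) p u t) :=
  (L.YY_spec p P.um P.u0 _).1

theorem zz_loc [CompactSpace X] (P : PQ act e T B S S' a a' Fm Fp p N τ c u n)
    (L : LF (act a) (act a').symm e Fm (B a) ε₀ C Λ) (R : ℝ) {δ : ℝ} (hδ : 0 < δ) :
    ∃ n₀ : ℕ, ∀ m ≥ n₀, ∀ t, |t| ≤ R → R2 (act a) (act a').symm δ ((act a)^[m] p)
      ((act a)^[m] (zz act e B a a' (sc ε₀ C Λ) p u t)) := by
  obtain ⟨n₀, hn⟩ := L.loc_unif (Real.exp R * ‖u‖) hδ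
  refine ⟨n₀, fun m hm t ht => ?_⟩
  obtain ⟨h1, h2⟩ := L.YY_spec p P.um P.u0 (Real.exp (-t))
  refine hn m hm p u _ P.um P.u0 h1 ?_
  unfold zz
  rw [h2, abs_of_pos (Real.exp_pos _)]
  apply mul_le_mul_of_nonneg_right _ (norm_nonneg _)
  apply Real.exp_le_exp.mpr
  linarith [neg_le_abs t]

theorem beta_iter (P : PQ act e T B S S' a a' Fm Fp p N τ c u n) (k : ℕ) (x : X) :
    (act (N • a))^[k] x = (act a)^[N * k] x := by
  rw [← P.fd.sa.nsmul, ← P.fd.sa.nsmul, mul_comm, mul_nsmul']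
  
theorem app [CompactSpace X] (P : PQ act e T B S S' a a' Fm Fp p N τ c u n)
    (L : LF (act a) (act a').symm e Fm (B a) ε₀ C Λ) {ρ : ℝ} (hρ : 0 < ρ) (R : ℝ) :
    ∃ n₀ : ℕ, ∀ t, |t| ≤ R → ∀ k ≥ n₀,
      dist ((act (N • a))^[k] (zz act e B a a' (sc ε₀ C Λ) p u t)) p ≤ ρ * (1 / 2) ^ (k - n₀) := by
  obtain ⟨n₀, hn⟩ := P.zz_loc L R (lt_min hρ L.pos)
  refine ⟨n₀, fun t ht k hk => ?_⟩
  have h1 := (hn n₀ le_rfl t ht).1
  have h2 : k ≤ N * k := Nat.le_mul_of_pos_left k P.hN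
  have h3 := L.ctr _ _ (h1.mono (min_le_right _ _)) (N * k - n₀)
  rw [← Function.iterate_add_apply, ← Function.iterate_add_apply,
    Nat.sub_add_cancel (hk.trans h2), ← P.beta_iter, ← P.beta_iter] at h3
  have h4 : (act (N • a))^[k] p = p := by
    have : Function.IsFixedPt (act (N • a)) p := P.fix a
    exact this.iterate k
  rw [h4, dist_comm] at h3
  have h5 : dist ((act a)^[n₀] p) ((act a)^[n₀] (zz act e B a a' (sc ε₀ C Λ) p u t)) ≤ ρ :=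
    (h1 0).trans (min_le_left _ _)
  have h6 : (1 / 2 : ℝ) ^ (N * k - n₀) ≤ (1 / 2) ^ (k - n₀) :=
    pow_le_pow_of_le_one (by norm_num) (by norm_num) (by omega)
  calc _ ≤ _ := h3
    _ ≤ (1 / 2) ^ (k - n₀) * ρ := mul_le_mul h6 h5 dist_nonneg (by positivity)
    _ = _ := mul_comm _ _

theorem app2 [CompactSpace X] (P : PQ act e T B S S' a a' Fm Fp p N τ c u n)
    (L : LF (act a) (act a').symm e Fm (B a) ε₀ C Λ) (R : ℝ) :
    ∃ Q θ : ℝ, ∃ n₀ : ℕ, 0 ≤ Q ∧ 0 ≤ θ ∧ θ < 1 ∧ ∀ t, |t| ≤ R → ∀ k ≥ n₀,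
      dist ((act (N • a))^[k] (zz act e B a a' (sc ε₀ C Λ) p u t)) p ≤ Q * θ ^ k ∧
      ∀ v ∈ Fp ((act (N • a))^[k] (zz act e B a a' (sc ε₀ C Λ) p u t)), ∃ f ∈ Fp p,
        ‖v - f‖ ≤ Q * θ ^ k * ‖v‖ := by
  obtain ⟨ρ, hρ, M, hM, θ, hθ1, hθ2, hhol⟩ := P.fd.holderP
  obtain ⟨n₀, hn⟩ := P.app L hρ R
  have hθ0 : 0 < θ := by linarith
  refine ⟨max ρ M / θ ^ n₀, θ, n₀, by positivity, hθ0.le, hθ2, fun t ht k hk => ?_⟩
  have h1 := hn t ht k hk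
  have hpow : θ ^ (k - n₀) = θ ^ k / θ ^ n₀ := by
    rw [eq_div_iff (by positivity), ← pow_add, Nat.sub_add_cancel hk]
  constructor
  · refine h1.trans ?_
    have h2 : (1 / 2 : ℝ) ^ (k - n₀) ≤ θ ^ (k - n₀) := pow_le_pow_left₀ (by norm_num) hθ1 _
    calc ρ * (1 / 2) ^ (k - n₀) ≤ max ρ M * θ ^ (k - n₀) :=
          mul_le_mul (le_max_left _ _) h2 (by positivity) (by positivity)
      _ = _ := by rw [hpow]; ring
  · intro v hv
    obtain ⟨f, hf, h2⟩ := hhol (k - n₀) _ p h1 v hv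
    refine ⟨f, hf, h2.trans ?_⟩
    apply mul_le_mul_of_nonneg_right _ (norm_nonneg _)
    calc M * θ ^ (k - n₀) ≤ max ρ M * θ ^ (k - n₀) :=
          mul_le_mul_of_nonneg_right (le_max_right _ _) (by positivity)
      _ = _ := by rw [hpow]; ring

theorem half_inner (P : PQ act e T B S S' a a' Fm Fp p N τ c u n) {v f : E} (hf : f ∈ Fp p)
    {δ : ℝ} (hδ : δ ≤ 1 / 4) (h : ‖v - f‖ ≤ δ * ‖v‖) : ‖v‖ ≤ 2 * |⟪v, n⟫_ℝ| := by
  obtain ⟨w, -, hw0, hl⟩ := P.fd.lp p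
  obtain ⟨s, hs⟩ := hl n P.np
  obtain ⟨r, hr⟩ := hl f hf
  have hs0 : s ≠ 0 := by
    rintro rfl
    have := P.n1
    rw [hs, zero_smul, norm_zero] at this
    exact zero_ne_one this
  have hfn : f = (r / s) • n := by
    rw [hr, hs, smul_smul, div_mul_cancel₀ _ hs0]
  have h1 : ‖f‖ = |⟪f, n⟫_ℝ| := by
    rw [hfn, real_inner_smul_left, real_inner_self_eq_norm_sq, P.n1, norm_smul, P.n1]
    simp [abs_div]
  have h2 : |⟪f, n⟫_ℝ| ≤ |⟪v, n⟫_ℝ| + ‖v - f‖ := by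
    have e1 : ⟪f, n⟫_ℝ = ⟪v, n⟫_ℝ - ⟪v - f, n⟫_ℝ := by rw [inner_sub_left]; ring
    rw [e1]
    refine (abs_sub _ _).trans ?_
    have := abs_real_inner_le_norm (v - f) n
    rw [P.n1, mul_one] at this
    linarith
  have h3 : ‖v‖ ≤ ‖f‖ + ‖v - f‖ := by
    have := norm_add_le f (v - f)
    rwa [add_sub_cancel] at this
  have h4 : δ * ‖v‖ ≤ 1 / 4 * ‖v‖ := mul_le_mul_of_nonneg_right hδ (norm_nonneg _)
  linarith

theorem near_fix (P : PQ act e T B S S' a a' Fm Fp p N τ c u n) (g : G) :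
    ∃ K > 0, ∃ r > 0, ∀ (x : X) (δ : ℝ), 0 ≤ δ → dist x p < r → ∀ v ∈ Fp x,
      (∃ f ∈ Fp p, ‖v - f‖ ≤ δ * ‖v‖) →
      |⟪B (N • g) x v, n⟫_ℝ - Real.exp (c * τ g) * ⟪v, n⟫_ℝ| ≤ K * (dist x p + δ) * ‖v‖ := by
  obtain ⟨C₁, r, h⟩ := P.fd.sa.sm (N • g)
  have hC := h.C_pos
  set lam := Real.exp (c * τ g) with hlam
  have hl0 : 0 < lam := Real.exp_pos _
  refine ⟨2 * C₁ + C₁ * C₁ + lam, by positivity, r, h.r_pos, ?_⟩
  rintro x δ hδ hx v hv ⟨f, hf, hvf⟩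
  obtain ⟨w, hw, h1, h2⟩ := h.lip x p hx v (P.fd.pT x hv)
  have hd := dist_nonneg (x := x) (y := p)
  have hv0 := norm_nonneg v
  have h3 := h.bd p (w - f) ((T p).sub_mem hw (P.fd.pT p hf))
  have h4 : ‖w - f‖ ≤ C₁ * dist x p * ‖v‖ + δ * ‖v‖ := by
    have e1 : w - f = (v - f) - (v - w) := by abel
    rw [e1]
    refine (norm_sub_le _ _).trans ?_
    linarith
  have e2 : ⟪B (N • g) x v, n⟫_ℝ - lam * ⟪v, n⟫_ℝ = ⟪B (N • g) x v - lam • v, n⟫_ℝ := by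
    rw [inner_sub_left, real_inner_smul_left]
  have e3 : B (N • g) x v - lam • v = (B (N • g) x v - B (N • g) p w) + B (N • g) p (w - f) +
      lam • (f - v) := by
    rw [map_sub, P.mulp g f hf, smul_sub]; abel
  have h5 : ‖lam • (f - v)‖ ≤ lam * (δ * ‖v‖) := by
    rw [norm_smul, Real.norm_of_nonneg hl0.le, norm_sub_rev]
    exact mul_le_mul_of_nonneg_left hvf hl0.le
  have h6 : ‖B (N • g) x v - lam • v‖ ≤ C₁ * dist x p * ‖v‖ +
      C₁ * (C₁ * dist x p * ‖v‖ + δ * ‖v‖) + lam * (δ * ‖v‖) := by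
    rw [e3]
    refine (norm_add_le _ _).trans (add_le_add ((norm_add_le _ _).trans (add_le_add h2
      (h3.trans (mul_le_mul_of_nonneg_left h4 hC.le)))) h5)
  rw [e2]
  refine (abs_real_inner_le_norm _ _).trans ?_
  rw [P.n1, mul_one]
  refine h6.trans ?_
  have hdv : 0 ≤ dist x p * ‖v‖ := mul_nonneg hd hv0
  have hδv : 0 ≤ δ * ‖v‖ := mul_nonneg hδ hv0
  nlinarith [mul_nonneg hC.le hdv, mul_nonneg hC.le hδv, mul_nonneg (mul_nonneg hC.le hC.le) hδv,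
    mul_nonneg hl0.le hdv]

theorem estb [CompactSpace X] (P : PQ act e T B S S' a a' Fm Fp p N τ c u n)
    (L : LF (act a) (act a').symm e Fm (B a) ε₀ C Λ) (g : G) (R : ℝ) :
    ∃ C₂ θ : ℝ, ∃ k₀ : ℕ, 0 ≤ C₂ ∧ 0 ≤ θ ∧ θ < 1 ∧ ∀ t, |t| ≤ R → ∀ k ≥ k₀,
      ∀ v ∈ Fp ((act (N • a))^[k] (zz act e B a a' (sc ε₀ C Λ) p u t)),
        ‖v‖ ≤ 2 * |⟪v, n⟫_ℝ| ∧
        |⟪B (N • g) ((act (N • a))^[k] (zz act e B a a' (sc ε₀ C Λ) p u t)) v, n⟫_ℝ -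
          Real.exp (c * τ g) * ⟪v, n⟫_ℝ| ≤ C₂ * θ ^ k * ‖v‖ := by
  obtain ⟨K, hK, r, hr, hnf⟩ := P.near_fix g
  obtain ⟨Q, θ, n₀, hQ, hθ0, hθ1, happ⟩ := P.app2 L R
  have ht : Tendsto (fun k : ℕ => Q * θ ^ k) atTop (𝓝 0) := by
    have := (tendsto_pow_atTop_nhds_zero_of_lt_one hθ0 hθ1).const_mul Q
    simpa using this
  obtain ⟨k₁, hk₁⟩ := eventually_atTop.mp ((tendsto_order.mp ht).2 (min (1 / 4) r)
    (lt_min (by norm_num) hr))
  refine ⟨K * (2 * Q), θ, max n₀ k₁, by positivity, hθ0, hθ1, fun t htR k hk v hv => ?_⟩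
  obtain ⟨h1, h2⟩ := happ t htR k (le_of_max_le_left hk)
  have h3 := hk₁ k (le_of_max_le_right hk)
  obtain ⟨f, hf, hvf⟩ := h2 v hv
  refine ⟨P.half_inner hf (h3.le.trans (min_le_left _ _)) hvf, ?_⟩
  have hQk : 0 ≤ Q * θ ^ k := by positivity
  refine (hnf _ (Q * θ ^ k) hQk (lt_of_le_of_lt h1 (h3.trans_le (min_le_right _ _))) v hv
    ⟨f, hf, hvf⟩).trans ?_
  apply mul_le_mul_of_nonneg_right _ (norm_nonneg _)
  calc K * (dist _ p + Q * θ ^ k) ≤ K * (Q * θ ^ k + Q * θ ^ k) :=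
        mul_le_mul_of_nonneg_left (by linarith) hK.le
    _ = _ := by ring

/-- **The normalised section** of the line field along the axis. -/
theorem exists_Nn [CompactSpace X] [FiniteDimensional ℝ E]
    (P : PQ act e T B S S' a a' Fm Fp p N τ c u n)
    (L : LF (act a) (act a').symm e Fm (B a) ε₀ C Λ) :
    ∃ Nn : ℝ → E, Continuous Nn ∧
      (∀ t, Nn t ∈ Fp (zz act e B a a' (sc ε₀ C Λ) p u t)) ∧ (∀ t, Nn t ≠ 0) ∧
      ∀ g t, B (N • g) (zz act e B a a' (sc ε₀ C Λ) p u t) (Nn t) = Nn (t + τ g) := by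
  obtain ⟨εp, Cp, Λp, Lp⟩ := P.fd.lfp
  obtain ⟨C₁, r₁, hsm⟩ := P.fd.sa.sm (N • a)
  have H : KH (act (N • a)) (B (N • a)) Fp (zz act e B a a' (sc ε₀ C Λ) p u) n
      (Real.exp (c * τ a)) := {
    contβ := (act (N • a)).continuous
    contz := P.zz_cont L
    mu := Real.exp_pos _
    map := fun x v hv => P.fd.ip _ x v hv
    line := P.fd.lp
    clF := Lp.clF
    Dcont := sm_cont hsm P.fd.pT
    lower := by
      obtain ⟨M, hM, h⟩ := P.fd.sa.lower (N • a)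
      exact ⟨M, hM, fun x v hv => h x v (P.fd.pT x hv)⟩
    est := P.estb L a }
  obtain ⟨N₀, hc, hN1, hN0, hN2, hN3⟩ := H.exists_N
  have heq : ∀ g t, B (N • g) (zz act e B a a' (sc ε₀ C Λ) p u t) (N₀ t) =
      Real.exp (c * τ g) • N₀ (t + τ g) := by
    intro g t
    refine H.equiv hN1 hN2 hN3 (b := act (N • g)) (B := B (N • g)) (Real.exp_pos _).ne'
      (P.zz_shift L g) (P.fd.ip _) ?_ ?_ t
    · intro k x v hv
      have hvT := P.fd.pT x hv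
      rw [P.fd.sa.vec_eq _ _ _ (P.fd.sa.memT _ _ hvT), P.fd.sa.vec_eq _ _ _ hvT,
        ← P.fd.sa.nsmul, ← P.fd.sa.chain _ _ _ _ hvT, ← P.fd.sa.chain _ _ _ _ hvT, add_comm]
    · intro t η hη
      obtain ⟨C₂, θ, k₀, h1, h2, h3, h4⟩ := P.estb L g |t|
      have ht : Tendsto (fun k : ℕ => C₂ * θ ^ k) atTop (𝓝 0) := by
        have := (tendsto_pow_atTop_nhds_zero_of_lt_one h2 h3).const_mul C₂
        simpa using this
      obtain ⟨k₁, hk₁⟩ := eventually_atTop.mp ((tendsto_order.mp ht).2 η hη)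
      refine ⟨max k₀ k₁, fun k hk v hv => ?_⟩
      obtain ⟨h5, h6⟩ := h4 t le_rfl k (le_of_max_le_left hk) v hv
      exact ⟨h5, h6.trans (mul_le_mul_of_nonneg_right (hk₁ k (le_of_max_le_right hk)).le
        (norm_nonneg _))⟩
  refine ⟨fun t => Real.exp (c * t) • N₀ t, ?_, ?_, ?_, ?_⟩
  · exact (Real.continuous_exp.comp (continuous_const.mul continuous_id)).smul hc
  · intro t
    exact (Fp _).smul_mem _ (hN1 t)
  · intro t
    exact smul_ne_zero (Real.exp_pos _).ne' (hN0 t)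
  · intro g t
    show B (N • g) (zz act e B a a' (sc ε₀ C Λ) p u t) (Real.exp (c * t) • N₀ t) =
      Real.exp (c * (t + τ g)) • N₀ (t + τ g)
    rw [map_smul, heq, smul_smul, ← Real.exp_add]
    congr 2
    ring

end PQ

end Pool.Agent.Y330.E
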