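import Pool.Agent.H66.L.S8.Y330.F.D6

set_option autoImplicit false

open Filter Topology Set Metric
open scoped InnerProductSpace

namespace Pool.Agent.Y330.F

open Pool.Agent.H789R2.AN Pool.Agent.Y330.G

variable {X : Type*} [MetricSpace X] {E : Type*} [NormedAddCommGroup E] [InnerProductSpace ℝ E]

/-- unit vectors of a line -/
theorem unit_cases {W : Submodule ℝ E} (hl : ∃ u ∈ W, u ≠ 0 ∧ ∀ v ∈ W, ∃ r : ℝ, v = r • u)
    {u v : E} (hu : u ∈ W) (hv : v ∈ W) (hu1 : ‖u‖ = 1) (hv1 : ‖v‖ = 1) : v = u ∨ v = -u := by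
  obtain ⟨g, hg, hg0, hlg⟩ := hl
  obtain ⟨r, hr⟩ := hlg u hu
  obtain ⟨s, hs⟩ := hlg v hv
  have hr0 : r ≠ 0 := by
    rintro rfl
    rw [hr, zero_smul, norm_zero] at hu1
    exact zero_ne_one hu1
  have hvu : v = (s / r) • u := by rw [hs, hr, smul_smul, div_mul_cancel₀ _ hr0]
  have h1 : |s / r| = 1 := by
    have := hv1
    rw [hvu, norm_smul, hu1, mul_one] at this
    exact this
  rcases eq_or_eq_neg_of_abs_eq h1 with h | h
  · left; rw [hvu, h, one_smul]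
  · right; rw [hvu, h, neg_smul, one_smul]

/-- close unit vectors of a line are equal -/
theorem unit_eq {W : Submodule ℝ E} (hl : ∃ u ∈ W, u ≠ 0 ∧ ∀ v ∈ W, ∃ r : ℝ, v = r • u)
    {u v : E} (hu : u ∈ W) (hv : v ∈ W) (hu1 : ‖u‖ = 1) (hv1 : ‖v‖ = 1) (h : ‖u - v‖ < 2) :
    v = u := by
  rcases unit_cases hl hu hv hu1 hv1 with h1 | h1
  · exact h1
  · exfalso
    rw [h1, sub_neg_eq_add, ← two_smul ℝ u, norm_smul, hu1] at h
    norm_num at h

/-- a unit vector in the line -/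
theorem unit_exists {W : Submodule ℝ E} (hl : ∃ u ∈ W, u ≠ 0 ∧ ∀ v ∈ W, ∃ r : ℝ, v = r • u) :
    ∃ u ∈ W, ‖u‖ = 1 := by
  obtain ⟨w, hw, hw0, -⟩ := hl
  refine ⟨‖w‖⁻¹ • w, W.smul_mem _ hw, ?_⟩
  rw [norm_smul, norm_inv, norm_norm, inv_mul_cancel₀ (norm_ne_zero_iff.mpr hw0)]

omit [InnerProductSpace ℝ E] in
theorem unit_ne {u : E} (h : ‖u‖ = 1) : u ≠ 0 := by
  rintro rfl
  rw [norm_zero] at h
  exact zero_ne_one h

/-- Uniform closeness of the lines at close points. -/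
theorem line_close [CompactSpace X] [FiniteDimensional ℝ E] {F : X → Submodule ℝ E}
    (hl : ∀ x, ∃ u ∈ F x, u ≠ 0 ∧ ∀ v ∈ F x, ∃ r : ℝ, v = r • u)
    (hc : IsClosed {p : X × E | p.2 ∈ F p.1}) {η : ℝ} (hη : 0 < η) :
    ∃ δ > 0, ∀ x y, dist x y < δ → ∀ u ∈ F x, ‖u‖ = 1 → ∃ v ∈ F y, ‖v‖ = 1 ∧ ‖u - v‖ ≤ η := by
  by_contra hcon
  push Not at hcon
  have hseq : ∀ k : ℕ, (0 : ℝ) < 1 / ((k : ℝ) + 1) := fun k => by positivity
  choose xk yk hd uk hu hu1 hno using fun k : ℕ => hcon _ (hseq k)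
  obtain ⟨⟨x, u⟩, hmem, φ, hφ, hlim⟩ := ((isCompact_univ (X := X)).prod
    (isCompact_sphere (0 : E) 1)).tendsto_subseq (x := fun k => (xk k, uk k))
    (fun k => ⟨mem_univ _, by rw [mem_sphere_zero_iff_norm]; exact hu1 k⟩)
  have hlx : Tendsto (fun k => xk (φ k)) atTop (𝓝 x) := (continuous_fst.tendsto _).comp hlim
  have hlu : Tendsto (fun k => uk (φ k)) atTop (𝓝 u) := (continuous_snd.tendsto _).comp hlim
  have hu1' : ‖u‖ = 1 := by
    have := hmem.2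
    rwa [mem_sphere_zero_iff_norm] at this
  have h0 : Tendsto (fun k : ℕ => 1 / (((φ k : ℕ) : ℝ) + 1)) atTop (𝓝 0) :=
    tendsto_one_div_add_atTop_nhds_zero_nat.comp hφ.tendsto_atTop
  have hly : Tendsto (fun k => yk (φ k)) atTop (𝓝 x) :=
    hlx.congr_dist (squeeze_zero (fun _ => dist_nonneg) (fun k => (hd (φ k)).le) h0)
  have huF : u ∈ F x := hc.mem_of_tendsto (hlx.prodMk_nhds hlu) (Eventually.of_forall fun k => hu _)
  obtain ⟨v, hv, hvl⟩ := line_lsc hl hc hly huF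
  have hn : Tendsto (fun k => ‖v k‖⁻¹ • v k) atTop (𝓝 (‖u‖⁻¹ • u)) :=
    (hvl.norm.inv₀ (by rw [hu1']; exact one_ne_zero)).smul hvl
  rw [hu1', inv_one, one_smul] at hn
  have hdiff := (hlu.sub hn).norm
  rw [sub_self, norm_zero] at hdiff
  have hne : ∀ᶠ k in atTop, v k ≠ 0 := hvl.eventually_ne (unit_ne hu1')
  obtain ⟨k, hk1, hk2⟩ := (((tendsto_order.mp hdiff).2 η hη).and hne).exists
  have := hno (φ k) (‖v k‖⁻¹ • v k) ((F _).smul_mem _ (hv k)) (by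
    rw [norm_smul, norm_inv, norm_norm, inv_mul_cancel₀ (norm_ne_zero_iff.mpr hk2)])
  linarith

/-- Continuous unit section along a short path. -/
theorem section_path [CompactSpace X] [FiniteDimensional ℝ E] {F : X → Submodule ℝ E}
    (hl : ∀ x, ∃ u ∈ F x, u ≠ 0 ∧ ∀ v ∈ F x, ∃ r : ℝ, v = r • u)
    (hc : IsClosed {p : X × E | p.2 ∈ F p.1}) : ∃ δ > 0, ∀ {ι : Type} [TopologicalSpace ι]
      (β : ι → X), Continuous β → ∀ x₀, (∀ i, dist x₀ (β i) < δ) → ∀ v ∈ F x₀, ‖v‖ = 1 →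
      ∃ σ : ι → E, Continuous σ ∧ ∀ i, σ i ∈ F (β i) ∧ ‖σ i‖ = 1 ∧ ‖v - σ i‖ ≤ 1 / 4 := by
  obtain ⟨δ, hδ, h⟩ := line_close hl hc (η := 1 / 4) (by norm_num)
  refine ⟨δ, hδ, fun {ι} _ β hβ x₀ hd v hv hv1 => ?_⟩
  have hex : ∀ i, ∃ w ∈ F (β i), ‖w‖ = 1 ∧ ‖v - w‖ ≤ 1 / 4 := fun i => h _ _ (hd i) v hv hv1
  choose σ hσ1 hσ2 hσ3 using hex
  refine ⟨σ, ?_, fun i => ⟨hσ1 i, hσ2 i, hσ3 i⟩⟩
  have := cont_of_graph (f := fun i => (⟨σ i, by rw [mem_sphere_zero_iff_norm]; exact hσ2 i⟩ :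
      sphere (0 : E) 1)) (P := fun i z => (z : E) ∈ F (β i) ∧ ‖v - z‖ ≤ 1 / 4) (by
        refine IsClosed.inter ?_ ?_
        · exact hc.preimage ((hβ.comp continuous_fst).prodMk
            (continuous_subtype_val.comp continuous_snd))
        · exact isClosed_le (f := fun q : ι × sphere (0 : E) 1 => ‖v - q.2‖)
            (g := fun _ => (1 / 4 : ℝ))
            (continuous_const.sub (continuous_subtype_val.comp continuous_snd)).norm
            continuous_const)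
      (fun i => ⟨hσ1 i, hσ3 i⟩)
      (fun i z hz => Subtype.ext (by
        have hz1 : ‖(z : E)‖ = 1 := by
          have := z.2
          rwa [mem_sphere_zero_iff_norm] at this
        refine unit_eq (hl _) (hσ1 i) hz.1 (hσ2 i) hz1 ?_
        have e1 : σ i - z = (v - z) - (v - σ i) := by abel
        rw [e1]
        have := norm_sub_le (v - (z : E)) (v - σ i)
        have := hσ3 i
        have := hz.2
        linarith))
  exact continuous_subtype_val.comp this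

namespace LF

variable {c c' : X ≃ₜ X} {e : X → E} {F : X → Submodule ℝ E} {D : X → E →ₗ[ℝ] E} {ε₀ C Λ : ℝ}

/-- continuity of the affine coordinate on pairs which are local at a uniform time -/
theorem TT_tendsto' (L : LF c c' e F D ε₀ C Λ) {κ : Type*} {l : Filter κ} [l.NeBot] {x y : κ → X}
    {u : κ → E} {x₀ y₀ : X} {u₀ : E} (hx : Tendsto x l (𝓝 x₀)) (hy : Tendsto y l (𝓝 y₀))
    (hu : Tendsto u l (𝓝 u₀)) (hF : ∀ᶠ k in l, u k ∈ F (x k)) (hF₀ : u₀ ∈ F x₀) (h0 : u₀ ≠ 0)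
    (n : ℕ) (hR : ∀ᶠ k in l, R2 c c' (sc ε₀ C Λ) (c^[n] (x k)) (c^[n] (y k))) :
    Tendsto (fun k => TT c D e (x k) (u k) (y k)) l (𝓝 (TT c D e x₀ u₀ y₀)) := by
  have hcit := c.continuous.iterate n
  have hxl := (hcit.tendsto x₀).comp hx
  have hyl := (hcit.tendsto y₀).comp hy
  have hT := L.TT_tendsto hxl hyl
    (L.vec_tendsto hx hu hF hF₀ n) (hF.mono fun k hk => L.vec_mem n _ hk)
    (L.vec_mem n _ hF₀) (L.vec_ne n _ hF₀ h0) hR
  have h4 : R2 c c' (sc ε₀ C Λ) (c^[n] x₀) (c^[n] y₀) := closed_R2 c c' _ hxl hyl hR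
  rw [L.TT_shift ⟨n, h4⟩ hF₀ h0 n] at hT
  have hne : ∀ᶠ k in l, u k ≠ 0 := hu.eventually_ne h0
  refine hT.congr' ?_
  filter_upwards [hR, hF, hne] with k h1 h2 h3
  exact L.TT_shift ⟨n, h1⟩ h2 h3 n

/-- change of the base point in a leaf: continuity -/
theorem bc_cont [CompactSpace X] (L : LF c c' e F D ε₀ C Λ) {x y : X}
    (hxy : LW c c' (sc ε₀ C Λ) x y) {u v : E} (hu : u ∈ F x) (hu0 : u ≠ 0) (hv : v ∈ F y)
    (hv0 : v ≠ 0) :
    Continuous fun r : ℝ => TT c D e x u (YY c c' (sc ε₀ C Λ) D e y v r) := by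
  rw [continuous_iff_continuousAt]
  intro r₀
  obtain ⟨n₁, h1⟩ := L.loc_unif ((|r₀| + 1) * ‖v‖) (half_pos L.sc_pos)
  obtain ⟨n₂, h2⟩ := L.small hxy (half_pos L.sc_pos)
  set n := max n₁ n₂ with hn
  have hY : Tendsto (fun r : ℝ => YY c c' (sc ε₀ C Λ) D e y v r) (𝓝 r₀)
      (𝓝 (YY c c' (sc ε₀ C Λ) D e y v r₀)) :=
    L.YY_tendsto tendsto_const_nhds tendsto_const_nhds tendsto_id
      (Eventually.of_forall fun _ => hv) hv hv0
  refine L.TT_tendsto' (n := n) (l := 𝓝 r₀) (x := fun _ => x) (u := fun _ => u)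
    tendsto_const_nhds hY
    tendsto_const_nhds (Eventually.of_forall fun _ => hu) hu hu0 ?_
  have hev : ∀ᶠ r : ℝ in 𝓝 r₀, |r - r₀| < 1 := by
    have := Metric.ball_mem_nhds r₀ one_pos
    filter_upwards [this] with r hr
    rwa [mem_ball, Real.dist_eq] at hr
  filter_upwards [hev] with r hr
  obtain ⟨h3, h4⟩ := L.YY_spec y hv hv0 r
  have h5 : |TT c D e y v (YY c c' (sc ε₀ C Λ) D e y v r)| * ‖v‖ ≤ (|r₀| + 1) * ‖v‖ := by
    rw [h4]
    apply mul_le_mul_of_nonneg_right _ (norm_nonneg _)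
    have := abs_sub_abs_le_abs_sub r r₀
    linarith
  have h6 := h1 n (le_max_left _ _) y v _ hv hv0 h3 h5
  have h7 := h2 n (le_max_right _ _)
  exact (h7.trans h6).mono (le_of_eq (add_halves _))

theorem bc_inj [CompactSpace X] (L : LF c c' e F D ε₀ C Λ) {x y : X}
    (hxy : LW c c' (sc ε₀ C Λ) x y) {u v : E} (hu : u ∈ F x) (hu0 : u ≠ 0) (hv : v ∈ F y)
    (hv0 : v ≠ 0) :
    Function.Injective fun r : ℝ => TT c D e x u (YY c c' (sc ε₀ C Λ) D e y v r) := by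
  intro r r' h
  have h1 := (L.YY_spec y hv hv0 r).1
  have h2 := (L.YY_spec y hv hv0 r').1
  exact L.YY_inj hv hv0 (L.TT_inj (L.W_trans hxy h1) (L.W_trans hxy h2) hu hu0 h)

/-- change of the base point in a leaf: monotonicity -/
theorem bc_mono [CompactSpace X] (L : LF c c' e F D ε₀ C Λ) {x y : X}
    (hxy : LW c c' (sc ε₀ C Λ) x y) {u v : E} (hu : u ∈ F x) (hu0 : u ≠ 0) (hv : v ∈ F y)
    (hv0 : v ≠ 0) :
    StrictMono (fun r : ℝ => TT c D e x u (YY c c' (sc ε₀ C Λ) D e y v r)) ∨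
    StrictAnti (fun r : ℝ => TT c D e x u (YY c c' (sc ε₀ C Λ) D e y v r)) :=
  (L.bc_cont hxy hu hu0 hv hv0).strictMono_of_inj (L.bc_inj hxy hu hu0 hv hv0)

/-- local pairs: the coordinates seen from the two ends have opposite signs -/
theorem local_sign (L : LF c c' e F D ε₀ C Λ) {x y : X} (hxy : R2 c c' (sc ε₀ C Λ) x y)
    (hne : x ≠ y) {u v : E} (hu : u ∈ F x) (hu1 : ‖u‖ = 1) (hv : v ∈ F y) (hv1 : ‖v‖ = 1)
    (huv : ‖u - v‖ ≤ 1 / 2) : TT c D e x u y * TT c D e y v x < 0 := by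
  have hC := L.C_pos
  have hL := L.L_pos
  have hsc := L.sc_le'
  have hd0 : 0 < dist x y := dist_pos.mpr hne
  have hdsc : dist x y ≤ sc ε₀ C Λ := hxy.1 0
  have hCd : 64 * C * Λ * dist x y ≤ 1 := le_trans
    (mul_le_mul_of_nonneg_left hdsc (by positivity)) hsc
  have hCd' : 64 * C * dist x y ≤ 1 := by
    have : 0 ≤ C * dist x y := by positivity
    nlinarith
  obtain ⟨-, -, h1⟩ := L.bounds hxy hu (unit_ne hu1)
  obtain ⟨-, -, h2⟩ := L.bounds hxy.symm hv (unit_ne hv1)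
  obtain ⟨s1, -, s3⟩ := L.step (hxy.mono L.sc_le) (L.sc_le'' dist_nonneg hdsc) hu (unit_ne hu1)
  have s2 := (L.step (hxy.symm.mono L.sc_le) (by
    rw [dist_comm]; exact L.sc_le'' dist_nonneg hdsc) hv (unit_ne hv1)).1
  rw [hu1, mul_one] at s1
  rw [hv1, mul_one, dist_comm] at s2
  set a := t0 e x u y with ha
  set b := t0 e y v x with hb
  rw [dist_comm y x] at h2
  have h1' : |TT c D e x u y - a| ≤ 1 / 4 * |a| := by
    refine h1.trans ?_
    have : 16 * C * Λ * (dist x y * |a|) = (16 * C * Λ * dist x y) * |a| := by ring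
    rw [this]
    apply mul_le_mul_of_nonneg_right _ (abs_nonneg _)
    linarith
  have h2' : |TT c D e y v x - b| ≤ 1 / 4 * |b| := by
    refine h2.trans ?_
    have : 16 * C * Λ * (dist x y * |b|) = (16 * C * Λ * dist x y) * |b| := by ring
    rw [this]
    apply mul_le_mul_of_nonneg_right _ (abs_nonneg _)
    linarith
  have ha0 : 0 < |a| := by linarith
  have hb0 : 0 < |b| := by linarith
  have hbe : b = -⟪e y - e x, v⟫_ℝ := by
    rw [hb]
    unfold t0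
    rw [hv1, one_pow, div_one, ← neg_sub (e y) (e x), inner_neg_left]
  have hw : ⟪e y - e x, v⟫_ℝ = a * ⟪u, v⟫_ℝ + ⟪e y - e x - a • u, v⟫_ℝ := by
    rw [inner_sub_left (e y - e x) (a • u), real_inner_smul_left]
    ring
  have huv1 : 7 / 8 ≤ ⟪u, v⟫_ℝ := by
    have h3 := norm_sub_sq_real u v
    rw [hu1, hv1] at h3
    have h4 : ‖u - v‖ ^ 2 ≤ (1 / 2) ^ 2 := pow_le_pow_left₀ (norm_nonneg _) huv 2
    linarith
  have herr : |⟪e y - e x - a • u, v⟫_ℝ| ≤ 1 / 4 * |a| := by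
    refine (abs_real_inner_le_norm _ _).trans ?_
    rw [hv1, mul_one]
    refine s3.trans ?_
    have h5 : 2 * C * dist x y ^ 2 = (2 * C * dist x y) * dist x y := by ring
    rw [h5]
    have h6 : (2 * C * dist x y) * dist x y ≤ (2 * C * dist x y) * (2 * |a|) :=
      mul_le_mul_of_nonneg_left s1 (by positivity)
    nlinarith
  have hab : a * b < 0 := by
    rw [hbe, hw]
    set q := ⟪u, v⟫_ℝ
    set err := ⟪e y - e x - a • u, v⟫_ℝ
    have h7 : |a * err| ≤ 1 / 4 * a ^ 2 := by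
      rw [abs_mul]
      have : |a| * |err| ≤ |a| * (1 / 4 * |a|) := mul_le_mul_of_nonneg_left herr (abs_nonneg _)
      have h8 : |a| * (1 / 4 * |a|) = 1 / 4 * a ^ 2 := by
        rw [← sq_abs a]; ring
      linarith
    have h9 : 0 < a ^ 2 := by
      rw [← sq_abs]; positivity
    have h10 := (abs_le.mp h7).1
    nlinarith
  -- signs
  set A := TT c D e x u y
  set B := TT c D e y v x
  have hA := abs_le.mp h1'
  have hB := abs_le.mp h2'
  rcases lt_or_gt_of_ne (abs_pos.mp ha0) with ha' | ha'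
  · have hb' : 0 < b := by
      by_contra hcon
      push Not at hcon
      nlinarith
    rw [abs_of_neg ha'] at hA
    rw [abs_of_pos hb'] at hB
    exact mul_neg_of_neg_of_pos (by linarith [hA.2]) (by linarith [hB.1])
  · have hb' : b < 0 := by
      by_contra hcon
      push Not at hcon
      nlinarith
    rw [abs_of_pos ha'] at hA
    rw [abs_of_neg hb'] at hB
    exact mul_neg_of_pos_of_neg (by linarith [hA.1]) (by linarith [hB.2])

/-- points with small coordinate -/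
theorem near_pt [CompactSpace X] (L : LF c c' e F D ε₀ C Λ) : ∃ κ > 0, ∀ (x : X) (u : E) (r : ℝ),
    u ∈ F x → u ≠ 0 → |r| * ‖u‖ ≤ κ →
      R2 c c' (sc ε₀ C Λ) x (YY c c' (sc ε₀ C Λ) D e x u r) ∧
      R2 c c' (4 * (|r| * ‖u‖)) x (YY c c' (sc ε₀ C Λ) D e x u r) := by
  obtain ⟨κ, hκ, h⟩ := L.proper
  refine ⟨κ, hκ, fun x u r hu hu0 hr => ?_⟩
  obtain ⟨h1, h2⟩ := L.YY_spec x hu hu0 r
  have h3 := h x _ u h1 hu hu0 (by rw [h2]; exact hr)
  have h4 := (L.bounds h3 hu hu0).2.1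
  rw [h2] at h4
  exact ⟨h3, L.R2_self (h3.mono L.sc_le) h4⟩

/-- the segment between two close points of a leaf -/
theorem segm [CompactSpace X] (L : LF c c' e F D ε₀ C Λ) : ∃ ρ > 0, ∀ x y,
    R2 c c' ρ x y → ∀ u ∈ F x, u ≠ 0 → ∀ θ : ℝ, |θ| ≤ |TT c D e x u y| →
      R2 c c' (sc ε₀ C Λ) x (YY c c' (sc ε₀ C Λ) D e x u θ) ∧
      R2 c c' (8 * dist x y) x (YY c c' (sc ε₀ C Λ) D e x u θ) := by
  obtain ⟨κ, hκ, h⟩ := L.near_pt
  refine ⟨min (sc ε₀ C Λ) (κ / 2), lt_min L.sc_pos (half_pos hκ), fun x y hxy u hu hu0 θ hθ => ?_⟩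
  have h1 := (L.bounds (hxy.mono (min_le_left _ _)) hu hu0).1
  have h2 : dist x y ≤ κ / 2 := (hxy.1 0).trans (min_le_right _ _)
  have h3 : |θ| * ‖u‖ ≤ |TT c D e x u y| * ‖u‖ := mul_le_mul_of_nonneg_right hθ (norm_nonneg _)
  obtain ⟨h4, h5⟩ := h x u θ hu hu0 (by linarith)
  exact ⟨h4, h5.mono (by linarith)⟩

/-- uniform continuity of the affine coordinate with respect to the point -/
theorem coord_unif [CompactSpace X] [FiniteDimensional ℝ E] (L : LF c c' e F D ε₀ C Λ) (R : ℝ)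
    {η : ℝ} (hη : 0 < η) : ∃ ε > 0, ε ≤ ε₀ ∧ ∀ (x : X) (u : E) (r : ℝ) (v : X), u ∈ F x →
      ‖u‖ = 1 → |r| ≤ R → R2 c c' ε (YY c c' (sc ε₀ C Λ) D e x u r) v →
      |TT c D e x u v - r| ≤ η := by
  by_contra hcon
  push Not at hcon
  have hseq : ∀ k : ℕ, 0 < ε₀ / ((k : ℝ) + 1) := fun k => div_pos L.pos (by positivity)
  have hle : ∀ k : ℕ, ε₀ / ((k : ℝ) + 1) ≤ ε₀ := fun k =>
    div_le_self L.pos.le (by
      have : (0 : ℝ) ≤ (k : ℝ) := Nat.cast_nonneg _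
      linarith)
  choose xk uk rk vk hu hu1 hr hR hno using fun k : ℕ => hcon _ (hseq k) (hle k)
  obtain ⟨⟨⟨x, u⟩, r⟩, hmem, φ, hφ, hlim⟩ := (((isCompact_univ (X := X)).prod
    (isCompact_sphere (0 : E) 1)).prod (isCompact_Icc (a := -R) (b := R))).tendsto_subseq
    (x := fun k => ((xk k, uk k), rk k))
    (fun k => ⟨⟨mem_univ _, by rw [mem_sphere_zero_iff_norm]; exact hu1 k⟩, abs_le.mp (hr k)⟩)
  have hlx : Tendsto (fun k => xk (φ k)) atTop (𝓝 x) :=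
    ((continuous_fst.comp continuous_fst).tendsto _).comp hlim
  have hlu : Tendsto (fun k => uk (φ k)) atTop (𝓝 u) :=
    ((continuous_snd.comp continuous_fst).tendsto _).comp hlim
  have hlr : Tendsto (fun k => rk (φ k)) atTop (𝓝 r) := (continuous_snd.tendsto _).comp hlim
  have hu1' : ‖u‖ = 1 := by
    have := hmem.1.2
    rwa [mem_sphere_zero_iff_norm] at this
  have huF : u ∈ F x := L.clF.mem_of_tendsto (hlx.prodMk_nhds hlu)
    (Eventually.of_forall fun k => hu _)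
  have hY := L.YY_tendsto hlx hlu hlr (Eventually.of_forall fun k => hu _) huF (unit_ne hu1')
  have hε : Tendsto (fun k : ℕ => ε₀ / (((φ k : ℕ) : ℝ) + 1)) atTop (𝓝 0) := by
    have h4 : Tendsto (fun k : ℕ => ε₀ / ((k : ℝ) + 1)) atTop (𝓝 0) :=
      tendsto_const_nhds.div_atTop (tendsto_natCast_atTop_atTop.atTop_add tendsto_const_nhds)
    exact h4.comp hφ.tendsto_atTop
  have hV : Tendsto (fun k => vk (φ k)) atTop (𝓝 (YY c c' (sc ε₀ C Λ) D e x u r)) := by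
    refine hY.congr_dist ?_
    exact squeeze_zero (fun _ => dist_nonneg) (fun k => (hR (φ k)).1 0) hε
  obtain ⟨n, hn⟩ := L.loc_unif R (half_pos L.sc_pos)
  have hev : ∀ᶠ k in atTop, R2 c c' (sc ε₀ C Λ) (c^[n] (xk (φ k))) (c^[n] (vk (φ k))) := by
    filter_upwards [(tendsto_order.mp hε).2 _ (half_pos L.sc_pos)] with k hk
    obtain ⟨h1, h2⟩ := L.YY_spec (xk (φ k)) (hu (φ k)) (unit_ne (hu1 (φ k))) (rk (φ k))
    have h3 := hn n le_rfl (xk (φ k)) (uk (φ k)) _ (hu _) (unit_ne (hu1 _)) h1 (by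
      rw [h2, hu1, mul_one]; exact hr _)
    have h5 := L.jt _ _ ((hR (φ k)).mono (hle (φ k))) n 0
    have h6 : (1 / 2 : ℝ) ^ (n + 0) * dist (YY c c' (sc ε₀ C Λ) D e (xk (φ k)) (uk (φ k))
        (rk (φ k))) (vk (φ k)) ≤ sc ε₀ C Λ / 2 := by
      have h7 : dist (YY c c' (sc ε₀ C Λ) D e (xk (φ k)) (uk (φ k))
        (rk (φ k))) (vk (φ k)) ≤ ε₀ / (((φ k : ℕ) : ℝ) + 1) := (hR (φ k)).1 0
      have h8 := half_pow_le (n + 0)
      have h9 : 0 ≤ dist (YY c c' (sc ε₀ C Λ) D e (xk (φ k)) (uk (φ k))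
        (rk (φ k))) (vk (φ k)) := dist_nonneg
      nlinarith
    exact (h3.trans (h5.mono h6)).mono (le_of_eq (add_halves _))
  have hT := L.TT_tendsto' hlx hV hlu (Eventually.of_forall fun k => hu _) huF (unit_ne hu1') n hev
  rw [(L.YY_spec x huF (unit_ne hu1') r).2] at hT
  have hd := (hT.sub hlr).abs
  rw [sub_self, abs_zero] at hd
  obtain ⟨k, hk⟩ := ((tendsto_order.mp hd).2 η hη).exists
  exact absurd hk.le (not_le.mpr (hno (φ k)))

end LF

end Pool.Agent.Y330.F
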