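import Pool.Agent.H66.L.S8.Y330.E.L4

set_option autoImplicit false

open Filter Topology Set Metric
open scoped InnerProductSpace

namespace Pool.Agent.Y330.E

open Pool.Agent.H789R2.AN Pool.Agent.Y330.G Pool.Agent.H721R2 Pool.Agent.Y330.F

open LF (sc)

variable {X : Type*} [MetricSpace X] {E : Type*} [NormedAddCommGroup E] [InnerProductSpace ℝ E]
  {G : Type*} [AddCommGroup G]

/-- The points fixed by `w`, with trivial derivative on the two line fields. -/
def Zs (act : G → X ≃ₜ X) (B : G → X → E →ₗ[ℝ] E) (Fm Fp : X → Submodule ℝ E) (w : G) : Set X :=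
  {x | act w x = x ∧ (∀ u ∈ Fm x, B w x u = u) ∧ ∀ u ∈ Fp x, B w x u = u}

theorem Zs_swap (act : G → X ≃ₜ X) (B : G → X → E →ₗ[ℝ] E) (Fm Fp : X → Submodule ℝ E) (w : G) :
    Zs act B Fp Fm w = Zs act B Fm Fp w := by
  ext x
  exact ⟨fun h => ⟨h.1, h.2.2, h.2.1⟩, fun h => ⟨h.1, h.2.2, h.2.1⟩⟩

/-- limits of eigenvectors -/
theorem eig_lim [FiniteDimensional ℝ E] {act : G → X ≃ₜ X} {e : X → E} {T : X → Submodule ℝ E}
    {B : G → X → E →ₗ[ℝ] E} (A : SA act e T B) {F : X → Submodule ℝ E} (hF : ∀ x, F x ≤ T x)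
    (hc : IsClosed {p : X × E | p.2 ∈ F p.1}) {w : G} {κ : Type*} {l : Filter κ} [l.NeBot]
    {x : κ → X} {v : κ → E} {x₀ : X} {v₀ : E} {r : ℝ} (hx : Tendsto x l (𝓝 x₀))
    (hv : Tendsto v l (𝓝 v₀)) (hvF : ∀ k, v k ∈ F (x k)) (he : ∀ k, B w (x k) (v k) = r • v k) :
    v₀ ∈ F x₀ ∧ B w x₀ v₀ = r • v₀ := by
  have h1 : v₀ ∈ F x₀ := hc.mem_of_tendsto (hx.prodMk_nhds hv) (Eventually.of_forall hvF)
  refine ⟨h1, ?_⟩
  obtain ⟨C, ρ, hsm⟩ := A.sm w
  have h2 := sm_cont hsm hF (x₀, v₀) h1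
  have h3 : Tendsto (fun k => (x k, v k)) l (𝓝[{p : X × E | p.2 ∈ F p.1}] (x₀, v₀)) :=
    tendsto_nhdsWithin_iff.mpr ⟨hx.prodMk_nhds hv, Eventually.of_forall hvF⟩
  have h4 := h2.tendsto.comp h3
  refine tendsto_nhds_unique h4 ?_
  refine (hv.const_smul r).congr fun k => ?_
  exact (he k).symm

namespace FDZ

variable {act : G → X ≃ₜ X} {e : X → E} {T : X → Submodule ℝ E} {B : G → X → E →ₗ[ℝ] E}
  {S S' : HypSys X E} {a a' : G} {Fm Fp : X → Submodule ℝ E} {w : G}

theorem closed [FiniteDimensional ℝ E] (H : FD act e T B S S' a a' Fm Fp)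
    (hcm : IsClosed {p : X × E | p.2 ∈ Fm p.1}) (hcp : IsClosed {p : X × E | p.2 ∈ Fp p.1}) :
    IsClosed (Zs act B Fm Fp w) := by
  apply IsSeqClosed.isClosed
  intro xk x hxk hlim
  refine ⟨?_, ?_, ?_⟩
  · have h1 := ((act w).continuous.tendsto x).comp hlim
    exact tendsto_nhds_unique h1 (hlim.congr fun k => (hxk k).1.symm)
  · intro u hu
    obtain ⟨v, hv, hvl⟩ := line_lsc H.lm hcm hlim hu
    have := (eig_lim H.sa H.mT hcm (w := w) (r := 1) hlim hvl hv
      (fun k => by rw [one_smul]; exact (hxk k).2.1 _ (hv k))).2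
    rwa [one_smul] at this
  · intro u hu
    obtain ⟨v, hv, hvl⟩ := line_lsc H.lp hcp hlim hu
    have := (eig_lim H.sa H.pT hcp (w := w) (r := 1) hlim hvl hv
      (fun k => by rw [one_smul]; exact (hxk k).2.2 _ (hv k))).2
    rwa [one_smul] at this

theorem inv1 (A : SA act e T B) {F : X → Submodule ℝ E} (hF : ∀ x, F x ≤ T x)
    (hFi : ∀ g x, ∀ v ∈ F x, B g x v ∈ F (act g x)) (g : G) {x : X} (hx : act w x = x)
    (h : ∀ u ∈ F x, B w x u = u) : ∀ u ∈ F (act g x), B w (act g x) u = u := by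
  intro u hu
  have hback : act (-g) (act g x) = x := by rw [← A.add, neg_add_cancel, A.zero]
  set u' := B (-g) (act g x) u with hu'
  have h1 : u' ∈ F x := by
    have := hFi (-g) (act g x) u hu
    rwa [hback] at this
  have h2 : B g x u' = u := by
    have h3 := A.chain g (-g) (act g x) u (hF _ hu)
    rw [add_neg_cancel, A.one _ _ (hF _ hu), hback] at h3
    exact h3.symm
  have h4 := A.chain w g x u' (hF _ h1)
  rw [add_comm, A.chain g w x u' (hF _ h1), hx, h u' h1, h2] at h4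
  exact h4.symm

theorem inv (H : FD act e T B S S' a a' Fm Fp) (g : G) (x : X) :
    act g x ∈ Zs act B Fm Fp w ↔ x ∈ Zs act B Fm Fp w := by
  have key : ∀ g x, x ∈ Zs act B Fm Fp w → act g x ∈ Zs act B Fm Fp w := by
    rintro g x ⟨h1, h2, h3⟩
    exact ⟨by rw [H.sa.comm, h1], inv1 H.sa H.mT H.im g h1 h2, inv1 H.sa H.pT H.ip g h1 h3⟩
  refine ⟨fun h => ?_, key g x⟩
  have := key (-g) _ h
  rwa [← H.sa.add, neg_add_cancel, H.sa.zero] at this

/-- saturation along the first line field -/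
theorem sat [CompactSpace X] [FiniteDimensional ℝ E] (H : FD act e T B S S' a a' Fm Fp)
    {ε₀ C Λ : ℝ} (L : LF (act a) (act a').symm e Fm (B a) ε₀ C Λ)
    (hcp : IsClosed {p : X × E | p.2 ∈ Fp p.1}) {x y : X} (hx : x ∈ Zs act B Fm Fp w)
    (hxy : LW (act a) (act a').symm (sc ε₀ C Λ) x y) : y ∈ Zs act B Fm Fp w := by
  obtain ⟨M, Q⟩ := H.sa.eqv H.mT H.im (c := act a) (c' := (act a').symm) (a := a)
    (a' := -a') (fun x => rfl) (fun x => (H.sa.neg a' x).symm) (fun x v _ => rfl)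
    L.C_pos w (D := B a)
  obtain ⟨hx1, hx2, hx3⟩ := hx
  obtain ⟨u, hu, hu1⟩ := unit_exists (H.lm x)
  have hfix : ∀ z, LW (act a) (act a').symm (sc ε₀ C Λ) x z → act w z = z := by
    intro z hz
    have h1 := L.TT_map Q hz hu (unit_ne hu1)
    have h2 := L.W_map Q hz
    rw [hx1, hx2 u hu] at h1
    rw [hx1] at h2
    exact L.TT_inj h2 hz hu (unit_ne hu1) h1
  have hy := hfix y hxy
  refine ⟨hy, ?_, ?_⟩
  · intro v hv
    by_cases hv0 : v = 0
    · rw [hv0, map_zero]
    obtain ⟨u₀, hu₀, hu₀0, hl⟩ := H.lm y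
    have hBv : B w y v ∈ Fm y := by
      have := H.im w y v hv
      rwa [hy] at this
    obtain ⟨r, hr⟩ : ∃ r : ℝ, B w y v = r • v := by
      obtain ⟨s, hs⟩ := hl v hv
      obtain ⟨t, ht⟩ := hl _ hBv
      have hs0 : s ≠ 0 := by
        rintro rfl
        exact hv0 (by rw [hs, zero_smul])
      refine ⟨t / s, ?_⟩
      rw [ht]
      conv_rhs => rw [hs]
      rw [smul_smul, div_mul_cancel₀ _ hs0]
    obtain ⟨h1, h2⟩ := L.YY_spec y hv hv0 1
    set z := YY (act a) (act a').symm (sc ε₀ C Λ) (B a) e y v 1 with hz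
    have h3 := L.TT_map Q h1 hv hv0
    rw [hy, hfix z (L.W_trans hxy h1), hr, L.TT_smul h1 hv hv0] at h3
    rw [show TT (act a) (B a) e y v z = 1 from h2] at h3
    have hr1 : r = 1 := by
      rcases eq_or_ne r 0 with h4 | h4
      · rw [h4] at h3; simp at h3
      · field_simp at h3
        exact h3.symm
    rw [hr, hr1, one_smul]
  · intro v hv
    by_cases hv0 : v = 0
    · rw [hv0, map_zero]
    obtain ⟨u₀, hu₀, hu₀0, hl⟩ := H.lp y
    have hBv : B w y v ∈ Fp y := by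
      have := H.ip w y v hv
      rwa [hy] at this
    obtain ⟨r, hr⟩ : ∃ r : ℝ, B w y v = r • v := by
      obtain ⟨s, hs⟩ := hl v hv
      obtain ⟨t, ht⟩ := hl _ hBv
      have hs0 : s ≠ 0 := by
        rintro rfl
        exact hv0 (by rw [hs, zero_smul])
      refine ⟨t / s, ?_⟩
      rw [ht]
      conv_rhs => rw [hs]
      rw [smul_smul, div_mul_cancel₀ _ hs0]
    -- transported vectors
    have hvn : ∀ n : ℕ, B (n • a) y v ∈ Fp (act (n • a) y) := fun n => H.ip _ _ v hv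
    have hvn0 : ∀ n : ℕ, B (n • a) y v ≠ 0 := by
      intro n h0
      have := H.sa.inv (n • a) y (H.pT y hv)
      rw [h0, map_zero] at this
      exact hv0 this.symm
    have heig : ∀ n : ℕ, B w (act (n • a) y) (B (n • a) y v) = r • B (n • a) y v := by
      intro n
      have h1 := H.sa.chain w (n • a) y v (H.pT y hv)
      rw [← h1, add_comm, H.sa.chain (n • a) w y v (H.pT y hv), hy, hr, map_smul]
    obtain ⟨⟨y', ν⟩, hmem, φ, hφ, hlim⟩ := ((isCompact_univ (X := X)).prod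
      (isCompact_sphere (0 : E) 1)).tendsto_subseq
      (x := fun n : ℕ => (act (n • a) y, ‖B (n • a) y v‖⁻¹ • B (n • a) y v))
      (fun n => ⟨mem_univ _, by
        rw [mem_sphere_zero_iff_norm, norm_smul, norm_inv, norm_norm,
          inv_mul_cancel₀ (norm_ne_zero_iff.mpr (hvn0 n))]⟩)
    have hν : ‖ν‖ = 1 := by
      have := hmem.2
      rwa [mem_sphere_zero_iff_norm] at this
    have hly : Tendsto (fun n => act (φ n • a) y) atTop (𝓝 y') :=
      (continuous_fst.tendsto _).comp hlim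
    have hlν : Tendsto (fun n => ‖B (φ n • a) y v‖⁻¹ • B (φ n • a) y v) atTop (𝓝 ν) :=
      (continuous_snd.tendsto _).comp hlim
    obtain ⟨hνF, hνe⟩ := eig_lim H.sa H.pT hcp (w := w) (r := r) hly hlν
      (fun n => (Fp _).smul_mem _ (hvn _)) (fun n => by rw [map_smul, heig, smul_comm])
    have hws : WS (act a) x y := by
      obtain ⟨k, hk⟩ := hxy
      exact (WS.iter k).mp (L.ctr.ws (hk.1.mono L.sc_le))
    have hlx : Tendsto (fun n => act (φ n • a) x) atTop (𝓝 y') := by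
      refine hly.congr_dist ?_
      rw [Metric.tendsto_atTop]
      intro ε hε
      obtain ⟨m, hm⟩ := hws.eventually_lt hε
      refine ⟨m, fun n hn => ?_⟩
      rw [Real.dist_eq, sub_zero, abs_of_nonneg dist_nonneg, H.sa.nsmul, H.sa.nsmul, dist_comm]
      exact hm _ (hn.trans (hφ.id_le n))
    have hy'3 : B w y' ν = ν := by
      obtain ⟨v', hv', hvl'⟩ := line_lsc H.lp hcp hlx hνF
      have := (eig_lim H.sa H.pT hcp (w := w) (r := 1) hlx hvl' hv'
        (fun k => by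
          rw [one_smul]
          exact ((inv (w := w) H (φ k • a) x).mpr ⟨hx1, hx2, hx3⟩).2.2 _ (hv' k))).2
      rwa [one_smul] at this
    rw [hy'3] at hνe
    have hr1 : r = 1 := by
      have h1 : (r - 1) • ν = 0 := by rw [sub_smul, one_smul, ← hνe, sub_self]
      rcases smul_eq_zero.mp h1 with h | h
      · linarith
      · exact absurd h (unit_ne hν)
    rw [hr, hr1, one_smul]

theorem clm [CompactSpace X] [FiniteDimensional ℝ E] (H : FD act e T B S S' a a' Fm Fp) :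
    IsClosed {p : X × E | p.2 ∈ Fm p.1} := by
  obtain ⟨_, _, _, L⟩ := H.lfm
  exact L.clF

theorem clp [CompactSpace X] [FiniteDimensional ℝ E] (H : FD act e T B S S' a a' Fm Fp) :
    IsClosed {p : X × E | p.2 ∈ Fp p.1} := by
  obtain ⟨_, _, _, L⟩ := H.lfp
  exact L.clF

theorem satp [CompactSpace X] [FiniteDimensional ℝ E] (H : FD act e T B S S' a a' Fm Fp)
    {ε₀ C Λ : ℝ} (L : LF (act a).symm (act a') e Fp (B (-a)) ε₀ C Λ) {x y : X}
    (hx : x ∈ Zs act B Fm Fp w) (hxy : LW (act a).symm (act a') (sc ε₀ C Λ) x y) :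
    y ∈ Zs act B Fm Fp w := by
  have h1 := H.inv
  have L' : LF (act (-a)) (act (-a')).symm e Fp (B (-a)) ε₀ C Λ := by
    rw [H.sa.negH, H.sa.negH]
    exact L
  rw [← Zs_swap] at hx ⊢
  refine sat H.inv L' (clm H) hx ?_
  rw [H.sa.negH, H.sa.negH]
  exact hxy

end FDZ

/-- On points where a power of `c'` coincides with a power of `c`. -/
theorem fix_sr [CompactSpace X] {c c' : X ≃ₜ X} (hcc : ∀ x, c' (c x) = c (c' x)) {P Q : ℕ}
    (hQ : 1 ≤ Q) {ε₁ : ℝ} (hε₁ : 0 < ε₁) : ∃ ε > 0, ∀ x y, c'^[Q] x = c^[P] x →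
      c'^[Q] y = c^[P] y → SR c ε x y → SR c' ε₁ x y := by
  obtain ⟨η, hη, h⟩ := uc c' c'.continuous Q hε₁
  refine ⟨η / 2, half_pos hη, fun x y hx hy hxy n => ?_⟩
  have hit : ∀ z, c'^[Q] z = c^[P] z → ∀ k : ℕ, c'^[Q * k] z = c^[P * k] z := by
    intro z hz k
    induction k with
    | zero => rfl
    | succ k ih =>
      have h1 : Function.Commute c'^[Q] c^[P * k] :=
        Function.Commute.iterate_iterate (fun x => hcc x) _ _
      rw [Nat.mul_succ, add_comm, Function.iterate_add_apply, ih, h1 z, hz,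
        ← Function.iterate_add_apply, Nat.mul_succ]
  have hn : n = n % Q + Q * (n / Q) := (Nat.mod_add_div n Q).symm
  rw [hn, Function.iterate_add_apply, Function.iterate_add_apply, hit x hx, hit y hy]
  exact (h _ (Nat.mod_lt _ hQ).le _ _ ((hxy _).trans_lt (by linarith))).le

/-- **The saturated set** of a wall element. -/
theorem exSD [CompactSpace X] [FiniteDimensional ℝ E] {act : G → X ≃ₜ X} {e : X → E}
    {T : X → Submodule ℝ E} {B : G → X → E →ₗ[ℝ] E} {S S' : HypSys X E} {a a' : G}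
    {Fm Fp : X → Submodule ℝ E} (H : FD act e T B S S' a a' Fm Fp) {ε₁ C₁ Λ₁ ε₂ C₂ Λ₂ : ℝ}
    (L : LF (act a) (act a').symm e Fm (B a) ε₁ C₁ Λ₁)
    (Lp : LF (act a).symm (act a') e Fp (B (-a)) ε₂ C₂ Λ₂) {P Q : ℕ} (hP : 1 ≤ P) (hQ : 1 ≤ Q)
    {w : G} (hw : w = P • a + Q • a') :
    SD (act a) (act a') e Fm Fp (B a) (B (-a)) ε₁ C₁ Λ₁ ε₂ C₂ Λ₂ (Zs act B Fm Fp w) where
  lm := L
  lp := Lp
  cl := FDZ.closed H L.clF Lp.clF
  inv := fun x => FDZ.inv H a x
  satm := fun x hx y hxy => FDZ.sat H L Lp.clF hx hxy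
  satp := fun x hx y hxy => FDZ.satp H Lp hx hxy
  brk := by
    intro ε hε
    obtain ⟨εc, hεc, c1, c2, c3, c4⟩ := H.ctr4
    have A := H.sa
    have hwp : ∀ x, act w x = x → (act a')^[Q] x = (act a).symm^[P] x := by
      intro x hx
      rw [hw, A.add, A.nsmul, A.nsmul] at hx
      conv_rhs => rw [← hx]
      exact (SD.iterS (act a) P _).symm
    have hwp' : ∀ x, act w x = x → (act a').symm^[Q] x = (act a)^[P] x := by
      intro x hx
      rw [hw, add_comm, A.add, A.nsmul, A.nsmul] at hx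
      conv_lhs => rw [← hx]
      exact SD.iterS (act a') Q _
    obtain ⟨κ₁, hκ₁, hf1⟩ := fix_sr (c := act a) (c' := (act a').symm) (fun x => by
      simp only [← A.neg]
      exact A.comm _ _ x) (P := P) hQ (lt_min hε L.pos)
    obtain ⟨κ₂, hκ₂, hf2⟩ := fix_sr (c := (act a).symm) (c' := act a') (fun x => by
      simp only [← A.neg]
      exact A.comm _ _ x) (P := P) hQ (lt_min hε Lp.pos)
    obtain ⟨δb, hδb, hub⟩ := uc1 (b := act w) (act w).continuous (half_pos hεc)
    set κ := min (min κ₁ κ₂) (min (min ε (εc / 2)) (min δb (min ε₁ ε₂))) with hκ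
    have hκ0 : 0 < κ := lt_min (lt_min hκ₁ hκ₂)
      (lt_min (lt_min hε (half_pos hεc)) (lt_min hδb (lt_min L.pos Lp.pos)))
    have k1 : κ ≤ κ₁ := (min_le_left _ _).trans (min_le_left _ _)
    have k2 : κ ≤ κ₂ := (min_le_left _ _).trans (min_le_right _ _)
    have k3 : κ ≤ ε := (min_le_right _ _).trans ((min_le_left _ _).trans (min_le_left _ _))
    have k4 : κ ≤ εc / 2 := (min_le_right _ _).trans ((min_le_left _ _).trans (min_le_right _ _))
    have k5 : κ ≤ δb := (min_le_right _ _).trans ((min_le_right _ _).trans (min_le_left _ _))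
    have k6 : κ ≤ ε₁ := (min_le_right _ _).trans ((min_le_right _ _).trans
      ((min_le_right _ _).trans (min_le_left _ _)))
    obtain ⟨δ, hδ, hbp⟩ := bpath c1 H.lprS hκ0 (by linarith)
    refine ⟨δ, hδ, fun {ι} _ x y hx hy hxZ hyZ hd => ?_⟩
    obtain ⟨v, hvc, hv⟩ := hbp x y hx hy hd
    refine ⟨v, hvc, fun i => ?_⟩
    obtain ⟨hv1, hv2⟩ := hv i
    have hfx : act w (x i) = x i := (hxZ i).1
    have hfy : act w (y i) = y i := (hyZ i).1
    have hfv : act w (v i) = v i := by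
      have a1 : SR (act a) (εc / 2) (x i) (act w (v i)) := by
        intro k
        have h1 := hub _ _ ((hv1 k).trans k5)
        rw [comm_it (fun x => A.comm w a x) k, comm_it (fun x => A.comm w a x) k, hfx] at h1
        exact h1
      have a2 : SR (act a).symm (εc / 2) (y i) (act w (v i)) := by
        intro k
        have h1 := hub _ _ ((hv2 k).trans k5)
        have hcs : ∀ x, act w ((act a).symm x) = (act a).symm (act w x) := fun x => by
          simp only [← A.neg]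
          exact A.comm _ _ x
        rw [comm_it hcs k, comm_it hcs k, hfy] at h1
        exact h1
      have b1 := sr_tr a1.symm' hv1
      have b2 := sr_tr a2.symm' hv2
      exact c1.expans (b1.mono (by linarith)) (b2.mono (by linarith))
    have e1 : SR (act a').symm (min ε ε₁) (x i) (v i) :=
      hf1 _ _ (hwp' _ hfx) (hwp' _ hfv) (hv1.mono k1)
    have e2 : SR (act a') (min ε ε₂) (y i) (v i) :=
      hf2 _ _ (hwp _ hfy) (hwp _ hfv) (hv2.mono k2)
    refine ⟨?_, ⟨hv1.mono k3, e1.mono (min_le_left _ _)⟩, hv2.mono k3, e2.mono (min_le_left _ _)⟩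
    exact FDZ.sat H L Lp.clF (hxZ i) (L.W_of ⟨hv1.mono k6, e1.mono (min_le_right _ _)⟩)

end Pool.Agent.Y330.E
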