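import Pool.Agent.H66.L.S8.Y330.E.L5
import Pool.Agent.H66.L.S8.Y330.E.L6

set_option autoImplicit false

open Filter Topology Set Metric
open scoped InnerProductSpace

namespace Pool.Agent.Y330.E

open Pool.Agent.H789R2.AN Pool.Agent.Y330.G Pool.Agent.H721R2 Pool.Agent.Y330.F

open LF (sc)

variable {X : Type*} [MetricSpace X] {E : Type*} [NormedAddCommGroup E] [InnerProductSpace ℝ E]
  {G : Type*} [AddCommGroup G] {J : Type*}

/-- Sign data for a rational wall. -/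
structure SG0 (χ : J → G →+ ℝ) (act : G → X ≃ₜ X) (B : G → X → E →ₗ[ℝ] E)
    (Fm Fp : X → Submodule ℝ E) (f : G →+ ℝ) (a a' : G) : Prop where
  ra : ∀ l, χ l a ≠ 0
  ra' : ∀ l, χ l a' ≠ 0
  fa : 0 < f a
  fa' : f a' < 0
  rat : ∃ m m' : ℕ, 1 ≤ m ∧ 1 ≤ m' ∧ f (m • a + m' • a') = 0
  cm : ∀ b, (∀ l, χ l b ≠ 0) → 0 < f b → ∀ p, act b p = p → ∀ v ∈ Fm p, v ≠ 0 →
    ∀ r : ℝ, B b p v = r • v → |r| < 1
  cp : ∀ b, (∀ l, χ l b ≠ 0) → f b < 0 → ∀ p, act b p = p → ∀ v ∈ Fp p, v ≠ 0 →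
    ∀ r : ℝ, B b p v = r • v → |r| < 1

namespace SG0

variable {χ : J → G →+ ℝ} {act : G → X ≃ₜ X} {B : G → X → E →ₗ[ℝ] E}
    {Fm Fp : X → Submodule ℝ E} {f : G →+ ℝ} {a a' : G}

theorem symm (H : SG0 χ act B Fm Fp f a a') : SG0 χ act B Fp Fm (-f) a' a where
  ra := H.ra'
  ra' := H.ra
  fa := by
    show 0 < - f a'
    linarith [H.fa']
  fa' := by
    show - f a < 0
    linarith [H.fa]
  rat := by
    obtain ⟨m, m', h1, h2, h3⟩ := H.rat
    refine ⟨m', m, h2, h1, ?_⟩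
    rw [add_comm]
    show - f (m • a + m' • a') = 0
    rw [h3, neg_zero]
  cm := fun b hb h => H.cp b hb (by
    have h' : 0 < - f b := h
    linarith)
  cp := fun b hb h => H.cm b hb (by
    have h' : - f b < 0 := h
    linarith)

theorem inv (H : SG0 χ act B Fm Fp f a a') : SG0 χ act B Fp Fm (-f) (-a) (-a') where
  ra := fun l => by rw [map_neg]; exact neg_ne_zero.mpr (H.ra l)
  ra' := fun l => by rw [map_neg]; exact neg_ne_zero.mpr (H.ra' l)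
  fa := by
    show 0 < - f (-a)
    rw [map_neg, neg_neg]
    exact H.fa
  fa' := by
    show - f (-a') < 0
    rw [map_neg, neg_neg]
    exact H.fa'
  rat := by
    obtain ⟨m, m', h1, h2, h3⟩ := H.rat
    refine ⟨m, m', h1, h2, ?_⟩
    show - f (m • -a + m' • -a') = 0
    rw [smul_neg, smul_neg, ← neg_add, map_neg, h3, neg_zero, neg_zero]
  cm := fun b hb h => H.cp b hb (by
    have h' : 0 < - f b := h
    linarith)
  cp := fun b hb h => H.cm b hb (by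
    have h' : - f b < 0 := h
    linarith)

end SG0

variable {act : G → X ≃ₜ X} {e : X → E} {T : X → Submodule ℝ E} {B : G → X → E →ₗ[ℝ] E}
  {S S' : HypSys X E} {a a' : G} {Fm Fp : X → Submodule ℝ E} {χ : J → G →+ ℝ} {f : G →+ ℝ}

theorem exPQ [Finite J] [CompactSpace X] (H : FD act e T B S S' a a' Fm Fp)
    (Sg : SG0 χ act B Fm Fp f a a') {p : X} {q : ℕ} (hq : 1 ≤ q) (hp : (act a)^[q] p = p) {u : E}
    (hu : u ∈ Fm p) (hu0 : u ≠ 0) :
    ∃ N τ c n, PQ act e T B S S' a a' Fm Fp p N τ c u n ∧ ∃ κ : ℝ, ∀ g, τ g = κ * f g := by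
  obtain ⟨N₀, hN₀, hfix⟩ := H.exists_common hq hp
  obtain ⟨τ, hτ⟩ := exists_mult H.sa H.mT H.lm H.im hfix
  obtain ⟨τp, hτp⟩ := exists_mult H.sa H.pT H.lp H.ip hfix
  obtain ⟨w, hw, hw0, -⟩ := H.lp p
  have hN : 1 ≤ 2 * N₀ := by omega
  have hfix2 : ∀ g, act ((2 * N₀) • g) p = p := fun g => by
    rw [two_mul, add_smul, H.sa.add, hfix, hfix]
  obtain ⟨κ, hκ, h1⟩ := prop_lem χ f τ a Sg.ra Sg.fa fun b hb hfb =>
    mult_pos hN hfix2 hτ hu hu0 Sg.cm hb hfb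
  obtain ⟨κ', hκ', h2⟩ := prop_lem χ (-f) τp a' Sg.ra' (by
    show 0 < - f a'
    linarith [Sg.fa']) fun b hb hfb =>
    mult_pos hN hfix2 hτp hw hw0 Sg.symm.cm hb hfb
  have h2' : ∀ g, τp g = - (κ' * f g) := fun g => by
    rw [h2 g]
    show κ' * (- f g) = _
    ring
  exact ⟨2 * N₀, τ, κ' / κ, ‖w‖⁻¹ • w, {
    fd := H
    hN := hN
    fix := hfix2
    um := hu
    u0 := hu0
    mulm := hτ
    np := (Fp p).smul_mem _ hw
    n1 := by rw [norm_smul, norm_inv, norm_norm, inv_mul_cancel₀ (norm_ne_zero_iff.mpr hw0)]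
    mulp := fun g v hv => by
      rw [hτp g v hv, h2', h1, neg_neg]
      congr 2
      field_simp
    ta := by rw [h1]; exact mul_pos hκ Sg.fa
    ta' := by rw [h1]; exact mul_neg_of_pos_of_neg hκ Sg.fa' }, κ, h1⟩

/-- **Saturation along the line field at periodic points, for rational walls.** -/
theorem sat0 [Finite J] [CompactSpace X] [FiniteDimensional ℝ E]
    (H : FD act e T B S S' a a' Fm Fp) (Sg : SG0 χ act B Fm Fp f a a') {ε₀ C Λ : ℝ}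
    (L : LF (act a) (act a').symm e Fm (B a) ε₀ C Λ) {A : Set X} (hA : IsAtt (act a) A)
    (hAi : ∀ g x, act g x ∈ A ↔ x ∈ A) {p : X} (hpA : p ∈ A) {k₀ : ℕ} (hk₀ : 1 ≤ k₀)
    (hp : (act a)^[k₀] p = p) {u : E} (hu : u ∈ Fm p) (hu0 : u ≠ 0) :
    YY (act a) (act a').symm (sc ε₀ C Λ) (B a) e p u 1 ∈ A := by
  by_contra hno
  obtain ⟨m, m', hm, hm', hrat⟩ := Sg.rat
  obtain ⟨N, τ, c, n, P, κ, hτ⟩ := exPQ H Sg hk₀ hp hu hu0
  obtain ⟨εp, Cp, Λp, Lp⟩ := H.lfp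
  have hwN : (N * m) • a + (N * m') • a' = N • (m • a + m' • a') := by
    rw [smul_add, mul_smul, mul_smul]
  have hS := exSD H L Lp (Nat.mul_pos P.hN hm) (Nat.mul_pos P.hN hm') hwN.symm
  have hτ0 : τ (m • a + m' • a') = 0 := by rw [hτ, hrat, mul_zero]
  have hpZ : p ∈ Zs act B Fm Fp (N • (m • a + m' • a')) := by
    refine ⟨P.fix _, fun v hv => ?_, fun v hv => ?_⟩
    · rw [P.mulm _ v hv, hτ0, neg_zero, Real.exp_zero, one_smul]
    · rw [P.mulp _ v hv, hτ0, mul_zero, Real.exp_zero, one_smul]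
  have hAD : AD (act a) A := ⟨hA.closed, hA.inv, hA.sat⟩
  obtain ⟨⟨q, v₀⟩, hB, k, hk, hqk⟩ :=
    hS.bd_per hAD (hS.bd_nonempty hAD hpA hpZ hu hu0 one_pos hno)
  simp only at hqk
  have hB' := hB
  obtain ⟨hqA, hqZ, hv₀, hv₀1, hBfree⟩ := hB'
  simp only at hqA hqZ hv₀ hv₀1 hBfree
  obtain ⟨n₀, hn₀, hn₀1⟩ := unit_exists (H.lp q)
  have hn₀0 := unit_ne hn₀1
  have hneg : act (-a) = (act a).symm := H.sa.negH a
  have hneg' : act (-a') = (act a').symm := H.sa.negH a'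
  have hqk' : (act (-a))^[k] q = q := by
    rw [hneg]
    conv_lhs => rw [← hqk]
    exact SD.iterS (act a) k q
  obtain ⟨N', τ', c', m₀, P', -⟩ := exPQ H.inv Sg.inv hk hqk' hn₀ hn₀0
  have Li : LF (act (-a)) (act (-a')).symm e Fp (B (-a)) εp Cp Λp := by
    rw [hneg, hneg']
    exact Lp
  have Lpi : LF (act (-a)).symm (act (-a')) e Fm (B (- -a)) ε₀ C Λ := by
    rw [hneg, hneg', neg_neg]
    exact L
  obtain ⟨Nn, hNc, hN1, hN2, hN3⟩ := P'.exists_Nn Li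
  have hsh := P'.zz_shift Li
  have hzc := P'.zz_cont Li
  have hzl0 := P'.zz_leaf Li
  have hzeq : ∀ t, zz act e B (-a) (-a') (sc εp Cp Λp) q n₀ t =
      YY (act a).symm (act a') (sc εp Cp Λp) (B (-a)) e q n₀ (Real.exp (-t)) := by
    intro t
    unfold zz
    rw [hneg, hneg']
    rfl
  have hψeq : ∀ (z : ℝ → X) (Nn : ℝ → E) t s,
      psi act e B (-a) (-a') (sc ε₀ C Λ) z Nn t s =
      YY (act a) (act a').symm (sc ε₀ C Λ) (B a) e (z t) (Nn t) s := by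
    intro z Nn t s
    unfold psi
    rw [hneg, hneg', neg_neg]
    rfl
  have hpsh : ∀ σ : ℝ, σ ≠ 0 → ∀ (g : G) (t s : ℝ), _ := fun σ hσ =>
    P'.psi_shift (Nn := fun t => σ • Nn t) Li Lpi (fun t => (Fm _).smul_mem _ (hN1 t))
      (fun t => smul_ne_zero hσ (hN2 t)) (fun g t => by rw [map_smul, hN3])
  set z := zz act e B (-a) (-a') (sc εp Cp Λp) q n₀ with hz
  have hzl : ∀ t, LW (act a).symm (act a') (sc εp Cp Λp) q (z t) := by
    intro t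
    have := hzl0 t
    rw [hneg, hneg'] at this
    exact this
  have hzA : ∀ t, z t ∈ A := by
    intro t
    obtain ⟨k, hk⟩ := hzl t
    exact hA.sat q hqA _ ((WS.iter k).mp (Lp.ctr.ws (hk.1.mono Lp.sc_le)))
  have hzZ : ∀ t, z t ∈ Zs act B Fm Fp (N • (m • a + m' • a')) := fun t =>
    hS.satp q hqZ _ (hzl t)
  have hzne : ∀ t, q ≠ z t := by
    intro t heq
    have h1 := (Lp.YY_spec q hn₀ hn₀0 (Real.exp (-t))).2
    rw [← hzeq t, ← heq, Lp.TT_self q hn₀ hn₀0] at h1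
    exact (Real.exp_pos (-t)).ne h1
  -- unit section
  have hNn0 : ∀ t, 0 < ‖Nn t‖ := fun t => norm_pos_iff.mpr (hN2 t)
  set ν : ℝ → E := fun t => ‖Nn t‖⁻¹ • Nn t with hν
  have hν1 : ∀ t, ‖ν t‖ = 1 := fun t => by
    rw [hν]
    simp only
    rw [norm_smul, norm_inv, norm_norm, inv_mul_cancel₀ (hNn0 t).ne']
  have hνm : ∀ t, ν t ∈ Fm (z t) := fun t => (Fm _).smul_mem _ (hN1 t)
  have hνc : Continuous ν := (hNc.norm.inv₀ fun t => (hNn0 t).ne').smul hNc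
  -- local freeness
  obtain ⟨δ, hδ, hnear⟩ := hS.bd_near hAD
  obtain ⟨δL, hδL, hline⟩ := line_close H.lm L.clF (η := 1 / 4) (by norm_num)
  obtain ⟨κ₁, hκ₁, hpt⟩ := Lp.near_pt
  obtain ⟨t₀, ht₀⟩ : ∃ t₀ : ℝ, ∀ t ≥ t₀, Real.exp (-t) ≤ min κ₁ (min (δ / 4) (δL / 8)) := by
    have h1 : Tendsto (fun t : ℝ => Real.exp (-t)) atTop (𝓝 0) :=
      Real.tendsto_exp_neg_atTop_nhds_zero
    have h2 : 0 < min κ₁ (min (δ / 4) (δL / 8)) :=
      lt_min hκ₁ (lt_min (by linarith) (by linarith))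
    obtain ⟨t₀, ht₀⟩ := eventually_atTop.mp ((tendsto_order.mp h1).2 _ h2)
    exact ⟨t₀, fun t ht => (ht₀ t ht).le⟩
  have hzR : ∀ t ≥ t₀, R2 (act a).symm (act a') δ q (z t) ∧ dist q (z t) < δL := by
    intro t ht
    have h1 := ht₀ t ht
    have h2 := Real.exp_pos (-t)
    have h3 : |Real.exp (-t)| * ‖n₀‖ = Real.exp (-t) := by rw [hn₀1, mul_one, abs_of_pos h2]
    have h4 := (hpt q n₀ (Real.exp (-t)) hn₀ hn₀0 (by rw [h3]; exact h1.trans (min_le_left _ _))).2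
    rw [h3, ← hzeq t] at h4
    have h5 : Real.exp (-t) ≤ δ / 4 := h1.trans ((min_le_right _ _).trans (min_le_left _ _))
    have h6 : Real.exp (-t) ≤ δL / 8 := h1.trans ((min_le_right _ _).trans (min_le_right _ _))
    refine ⟨h4.mono (by linarith), ?_⟩
    have h7 : dist q (z t) ≤ 4 * Real.exp (-t) := h4.1 0
    linarith
  have hin : ∀ t ≥ t₀, ∀ s : ℝ, (s = 1 ∨ s = -1) → 0 < s * ⟪v₀, ν t⟫_ℝ → ‖v₀ - s • ν t‖ ≤ 1 / 4 := by
    intro t ht s hs hpos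
    obtain ⟨v, hv, hv1, hv2⟩ := hline q (z t) (hzR t ht).2 v₀ hv₀ hv₀1
    have hcl : ∀ y : E, ‖y‖ = 1 → ‖v₀ - y‖ ≤ 1 / 4 → 0 < ⟪v₀, y⟫_ℝ := by
      intro y hy h
      have h1 := norm_sub_sq_real v₀ y
      rw [hv₀1, hy] at h1
      nlinarith [norm_nonneg (v₀ - y)]
    have hvp := hcl v hv1 hv2
    rcases unit_cases (H.lm (z t)) (hνm t) hv (hν1 t) hv1 with h1 | h1
    · rw [h1] at hvp hv2
      rcases hs with rfl | rfl
      · rw [one_smul]; exact hv2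
      · linarith
    · rw [h1] at hvp hv2
      rw [inner_neg_right] at hvp
      rcases hs with rfl | rfl
      · linarith
      · rw [neg_one_smul]; exact hv2
  have hne0 : ∀ t ≥ t₀, ⟪v₀, ν t⟫_ℝ ≠ 0 := by
    intro t ht h0
    obtain ⟨v, hv, hv1, hv2⟩ := hline q (z t) (hzR t ht).2 v₀ hv₀ hv₀1
    have h1 := norm_sub_sq_real v₀ v
    rw [hv₀1, hv1] at h1
    have hvp : 0 < ⟪v₀, v⟫_ℝ := by nlinarith [norm_nonneg (v₀ - v)]
    rcases unit_cases (H.lm (z t)) (hνm t) hv (hν1 t) hv1 with h2 | h2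
    · rw [h2, h0] at hvp; exact lt_irrefl _ hvp
    · rw [h2, inner_neg_right, h0, neg_zero] at hvp; exact lt_irrefl _ hvp
  -- the sign
  obtain ⟨σ, hσ, hσp⟩ : ∃ σ : ℝ, (σ = 1 ∨ σ = -1) ∧ ∀ t ≥ t₀, 0 < σ * ⟪v₀, ν t⟫_ℝ := by
    have : PreconnectedSpace (Ici t₀) := Subtype.preconnectedSpace isPreconnected_Ici
    have hφc : Continuous fun t : Ici t₀ => ⟪v₀, ν t⟫_ℝ :=
      continuous_const.inner (hνc.comp continuous_subtype_val)
    have hsg := fun t : Ici t₀ => sign_const hφc (fun t => hne0 t t.2) ⟨t₀, self_mem_Ici⟩ t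
    rcases lt_or_gt_of_ne (hne0 t₀ le_rfl) with h1 | h1
    · refine ⟨-1, Or.inr rfl, fun t ht => ?_⟩
      have h2 : 0 < ⟪v₀, ν t₀⟫_ℝ * ⟪v₀, ν t⟫_ℝ := hsg ⟨t, ht⟩
      nlinarith
    · refine ⟨1, Or.inl rfl, fun t ht => ?_⟩
      have h2 : 0 < ⟪v₀, ν t₀⟫_ℝ * ⟪v₀, ν t⟫_ℝ := hsg ⟨t, ht⟩
      nlinarith
  have hσ0 : σ ≠ 0 := by rcases hσ with rfl | rfl <;> norm_num
  have hσn : |σ| = 1 := by rcases hσ with rfl | rfl <;> norm_num
  have hσν : ∀ t, ‖σ • ν t‖ = 1 := fun t => by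
    rw [norm_smul, hν1, mul_one]; exact hσn
  set ψ := psi act e B (-a) (-a') (sc ε₀ C Λ) z (fun t => σ • Nn t) with hψ
  have hψν : ∀ t s, ψ t s = YY (act a) (act a').symm (sc ε₀ C Λ) (B a) e (z t) (σ • ν t)
      (‖Nn t‖ * s) := by
    intro t s
    rw [hψ, hψeq]
    have h1 : σ • Nn t = ‖Nn t‖ • (σ • ν t) := by
      rw [hν]
      simp only
      rw [smul_comm, smul_smul (‖Nn t‖), mul_inv_cancel₀ (hNn0 t).ne', one_smul]
    rw [h1]
    exact L.YY_smul ((Fm _).smul_mem _ (hνm t)) (unit_ne (hσν t)) (hNn0 t).ne' s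
  have hlocal : ∀ t ≥ t₀, ∀ s, 0 < s → s < δ →
      YY (act a) (act a').symm (sc ε₀ C Λ) (B a) e (z t) (σ • ν t) s ∉ A := by
    intro t ht s hs0 hs1
    exact hnear (q, v₀) hB (z t) (hzZ t) (hzR t ht).1.symm (σ • ν t)
      ((Fm _).smul_mem _ (hνm t)) (hσν t)
      ((hin t ht σ hσ (hσp t ht)).trans (by norm_num)) s hs0 hs1
  -- uniform bound by periodicity
  set T₀ := τ' (-a) with hT₀
  have hT₀p : 0 < T₀ := P'.ta
  obtain ⟨K, hK⟩ := (isCompact_Icc (a := t₀) (b := t₀ + T₀)).exists_bound_of_continuousOn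
    hNc.continuousOn
  have hK1 : 0 < max K 1 := lt_max_of_lt_right one_pos
  have hψper : ∀ (j : ℤ) t s, ψ (t + j * T₀) s ∈ A ↔ ψ t s ∈ A := by
    intro j t s
    have h1 := hpsh σ hσ0 (j • -a) t s
    rw [map_zsmul, zsmul_eq_mul] at h1
    rw [← hAi (N' • j • -a) (ψ t s)]
    rw [hψ] at *
    rw [h1]
  refine P'.region (Nn := fun t => σ • Nn t) Li Lpi (hNc.const_smul σ)
    (fun t => (Fm _).smul_mem _ (hN1 t)) (fun t => smul_ne_zero hσ0 (hN2 t))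
    (fun g t => by rw [map_smul, hN3]) hA.closed hAi ?_
    (δ := δ / max K 1) (div_pos hδ hK1) ?_ ?_
  · intro x hx y hxy
    rw [hneg] at hxy
    exact hA.sat x hx y hxy
  · intro t s hs0 hs1 hmem
    -- move to the fundamental interval
    obtain ⟨j, hj, -⟩ := existsUnique_add_zsmul_mem_Ico hT₀p t t₀
    have hj' : t + j * T₀ ∈ Ico t₀ (t₀ + T₀) := by
      have : j • T₀ = j * T₀ := zsmul_eq_mul _ _
      rwa [this] at hj
    have h1 : ψ (t + j * T₀) s ∈ A := (hψper j t s).mpr hmem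
    rw [hψν] at h1
    have h2 := hK (t + j * T₀) ⟨hj'.1, hj'.2.le⟩
    have h3 := hNn0 (t + j * T₀)
    refine hlocal _ hj'.1 _ (mul_pos h3 hs0) ?_ h1
    rw [lt_div_iff₀ hK1] at hs1
    have h4 : ‖Nn (t + j * T₀)‖ ≤ max K 1 := h2.trans (le_max_left _ _)
    nlinarith
  · intro t
    by_contra hcon
    push Not at hcon
    refine hS.fin_gap hAD hk hqk (hzl t) (hzne t) (v := σ • ν t) ⟨hzA t, hzZ t,
      (Fm _).smul_mem _ (hνm t), hσν t, fun r hr hmem => ?_⟩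
    simp only at hmem
    refine hcon (r / ‖Nn t‖) (div_pos hr (hNn0 t)) ?_
    have h1 := hψν t (r / ‖Nn t‖)
    rw [mul_div_cancel₀ _ (hNn0 t).ne'] at h1
    rw [← hψ, h1]
    exact hmem

end Pool.Agent.Y330.E
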