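import Pool.Agent.H66.L.S8.Y330.E.L7

set_option autoImplicit false
set_option linter.unusedSectionVars false

open Filter Topology Set Metric
open scoped InnerProductSpace

namespace Pool.Agent.Y330.E

open Pool.Agent.H789R2.AN Pool.Agent.Y330.G Pool.Agent.H721R2 Pool.Agent.Y330.F

open LF (sc)

variable {X : Type*} [MetricSpace X] {E : Type*} [NormedAddCommGroup E] [InnerProductSpace ℝ E]
  {G : Type*} [AddCommGroup G] {J : Type*}

variable {act : G → X ≃ₜ X} {e : X → E} {T : X → Submodule ℝ E} {B : G → X → E →ₗ[ℝ] E}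
  {S S' : HypSys X E} {a a' : G} {Fm Fp : X → Submodule ℝ E} {χ : J → G →+ ℝ} {f : G →+ ℝ}

/-- **Saturation** of invariant attractors along the line field. -/
theorem satAll0 [Finite J] [CompactSpace X] [FiniteDimensional ℝ E]
    (H : FD act e T B S S' a a' Fm Fp) (Sg : SG0 χ act B Fm Fp f a a') {ε₀ C Λ : ℝ}
    (L : LF (act a) (act a').symm e Fm (B a) ε₀ C Λ) {A : Set X} (hA : IsAtt (act a) A)
    (hAi : ∀ g x, act g x ∈ A ↔ x ∈ A)
    (hper : ∀ x ∈ A, ∀ ρ > 0, ∃ p ∈ A, dist p x < ρ ∧ ∃ q : ℕ, 1 ≤ q ∧ (act a)^[q] p = p)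
    {x y : X} (hx : x ∈ A) (hxy : LW (act a) (act a').symm (sc ε₀ C Λ) x y) : y ∈ A := by
  by_cases hne : x = y
  · rwa [← hne]
  obtain ⟨u₀, hu₀, hu₀0, -⟩ := H.lm x
  have hr := L.TT_ne hxy hne hu₀ hu₀0
  set r := TT (act a) (B a) e x u₀ y with hrdef
  have hu : r • u₀ ∈ Fm x := (Fm x).smul_mem _ hu₀
  have hu0 : r • u₀ ≠ 0 := smul_ne_zero hr hu₀0
  have hT : TT (act a) (B a) e x (r • u₀) y = 1 := by
    rw [L.TT_smul hxy hu₀ hu₀0, ← hrdef, div_self hr]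
  have hy := L.YY_eq hu hu0 hxy hT
  have hseq : ∀ k : ℕ, ∃ p ∈ A, dist p x < 1 / ((k : ℝ) + 1) ∧
      ∃ q : ℕ, 1 ≤ q ∧ (act a)^[q] p = p := fun k => hper x hx _ (by positivity)
  choose pk hpA hpd q hq hqp using hseq
  have hpl : Tendsto pk atTop (𝓝 x) := by
    rw [tendsto_iff_dist_tendsto_zero]
    exact squeeze_zero (fun _ => dist_nonneg) (fun k => (hpd k).le)
      tendsto_one_div_add_atTop_nhds_zero_nat
  obtain ⟨v, hv, hvl⟩ := line_lsc H.lm L.clF hpl hu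
  have hne' : ∀ᶠ k in atTop, v k ≠ 0 := hvl.eventually_ne hu0
  have hmem : ∀ᶠ k in atTop,
      YY (act a) (act a').symm (sc ε₀ C Λ) (B a) e (pk k) (v k) 1 ∈ A := by
    filter_upwards [hne'] with k hk
    exact sat0 H Sg L hA hAi (hpA k) (hq k) (hqp k) (hv k) hk
  have hlim := L.YY_tendsto (r := fun _ : ℕ => (1 : ℝ)) hpl hvl tendsto_const_nhds
    (Eventually.of_forall hv) hu hu0
  rw [hy] at hlim
  exact hA.closed.mem_of_tendsto hlim hmem

/-- **Crossing the wall**: invariant attractors of `a` are attractors of `a'`. -/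
theorem cross0 [Finite J] [CompactSpace X] [FiniteDimensional ℝ E]
    (H : FD act e T B S S' a a' Fm Fp) (Sg : SG0 χ act B Fm Fp f a a') {A : Set X}
    (hA : IsAtt (act a) A) (hAi : ∀ g x, act g x ∈ A ↔ x ∈ A)
    (hmin : ∀ x ∈ A, ∃ A₀ ⊆ A, x ∈ A₀ ∧ MinAtt (act a) A₀) : IsAtt (act a') A := by
  have hper : ∀ x ∈ A, ∀ ρ > 0, ∃ p ∈ A, dist p x < ρ ∧ ∃ q : ℕ, 1 ≤ q ∧ (act a)^[q] p = p := by
    intro x hx ρ hρ
    obtain ⟨A₀, hA₀, hx₀, hm⟩ := hmin x hx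
    obtain ⟨p, hp, hd, q, hq, hqp⟩ := per_dense S (by rw [H.hg]; exact hm) hx₀ hρ
    rw [H.hg] at hqp
    exact ⟨p, hA₀ hp, hd, q, hq, hqp⟩
  obtain ⟨ε₀, C, Λ, L⟩ := H.lfm
  obtain ⟨εc, hεc, c1, c2, c3, c4⟩ := H.ctr4
  set ε := min ε₀ εc with hε
  obtain ⟨δ, hδ, hbrk⟩ := brk (g := act a) (h := (act a').symm) hεc (fun x => by
    simp only [← H.sa.neg]
    exact H.sa.comm _ _ x) c1 H.lprS (lt_min L.pos hεc)
  have hloc : ∀ x ∈ A, ∀ y, SR (act a').symm δ x y → y ∈ A := by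
    intro x hx y hxy
    obtain ⟨v, h1, h2, h3⟩ := hbrk x y hxy
    have hv : v ∈ A := satAll0 H Sg L hA hAi hper hx
      (L.W_of ⟨h1.mono (min_le_left _ _), h3.mono (min_le_left _ _)⟩)
    exact hA.sat v hv y (c2.ws (h2.mono (min_le_right _ _))).symm'
  refine ⟨hA.closed, hA.nonempty, fun x => hAi a' x, ?_⟩
  intro x hx y hxy
  obtain ⟨m, hm⟩ := hxy.eventually_lt hδ
  have hit : ∀ z, (act a').symm^[m] z ∈ A ↔ z ∈ A := fun z => by
    rw [← H.sa.negH, ← H.sa.nsmul]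
    exact hAi _ z
  rw [← hit]
  refine hloc _ ((hit x).mpr hx) _ fun k => ?_
  rw [← Function.iterate_add_apply, ← Function.iterate_add_apply]
  exact (hm _ (Nat.le_add_left _ _)).le

theorem tot_sub0 [Finite J] [CompactSpace X] [Nonempty X] [FiniteDimensional ℝ E]
    (H : FD act e T B S S' a a' Fm Fp) (Sg : SG0 χ act B Fm Fp f a a') :
    Tot (act a') ⊆ Tot (act a) := by
  obtain ⟨cc, hLP⟩ := H.exLP
  obtain ⟨cc', hLP'⟩ := H.symm.exLP
  have htot : IsAtt (act a) (Tot (act a)) :=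
    (tot_att (φ := act a) hLP (fun x => rfl)).1
  have hti : ∀ g x, act g x ∈ Tot (act a) ↔ x ∈ Tot (act a) := fun g =>
    (tot_att (φ := act g) hLP (fun x => H.sa.comm g a x)).2
  have hT' : IsAtt (act a') (Tot (act a)) := by
    refine cross0 H Sg htot hti ?_
    rintro x ⟨A₀, hA₀, hx⟩
    exact ⟨A₀, subset_sUnion_of_mem hA₀, hx, hA₀⟩
  apply sUnion_subset
  intro B' hB'
  by_cases hmeet : (B' ∩ Tot (act a)).Nonempty
  · exact MinAtt.subset_of_meet hB' hT' hmeet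
  exfalso
  have hdisj : Disjoint B' (Tot (act a)) := by
    rw [Set.disjoint_iff_inter_eq_empty]
    exact not_nonempty_iff_eq_empty.mp hmeet
  have hB'm : B' ∈ {A | MinAtt (act a') A ∧ Disjoint A (Tot (act a))} := ⟨hB', hdisj⟩
  have hne : (⋃₀ {A | MinAtt (act a') A ∧ Disjoint A (Tot (act a))}).Nonempty :=
    hB'.1.nonempty.mono (subset_sUnion_of_mem hB'm)
  have h1 : IsAtt (act a') (⋃₀ {A | MinAtt (act a') A ∧ Disjoint A (Tot (act a))}) :=
    (sub_att (φ := act a') hLP' (fun x => rfl) _ (hti a') hne).1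
  have h2 : ∀ g x, act g x ∈ ⋃₀ {A | MinAtt (act a') A ∧ Disjoint A (Tot (act a))} ↔
      x ∈ ⋃₀ {A | MinAtt (act a') A ∧ Disjoint A (Tot (act a))} := fun g =>
    (sub_att (φ := act g) hLP' (fun x => H.sa.comm g a' x) _ (hti g) hne).2
  have h3 : IsAtt (act a) (⋃₀ {A | MinAtt (act a') A ∧ Disjoint A (Tot (act a))}) := by
    refine cross0 H.symm Sg.symm h1 h2 ?_
    rintro x ⟨A₀, hA₀, hx⟩
    exact ⟨A₀, subset_sUnion_of_mem hA₀, hx, hA₀.1⟩
  obtain ⟨B₀, hB₀, hm⟩ := exists_minAtt h3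
  obtain ⟨z, hz⟩ := hm.1.nonempty
  have hz1 : z ∈ Tot (act a) := subset_sUnion_of_mem (show B₀ ∈ {A | MinAtt (act a) A} from hm) hz
  obtain ⟨A₁, hA₁, hzA⟩ := hB₀ hz
  exact Set.disjoint_left.mp hA₁.2 hzA hz1

/-- **Wall crossing**: the total attractors on the two sides coincide. -/
theorem tot_eq0 [Finite J] [CompactSpace X] [Nonempty X] [FiniteDimensional ℝ E]
    (H : FD act e T B S S' a a' Fm Fp) (Sg : SG0 χ act B Fm Fp f a a') :
    Tot (act a) = Tot (act a') :=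
  (tot_sub0 H.symm Sg.symm).antisymm (tot_sub0 H Sg)

end Pool.Agent.Y330.E
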