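import Pool.Agent.H66.L.S8.Y330.E.L8
import Pool.Agent.H66.L.S8.Y330.F.D12

set_option autoImplicit false
set_option linter.unusedSectionVars false

open scoped Manifold ContDiff Topology
open Set Filter

namespace Pool.Agent.Y330.E

open Pool.Agent.H721R2 Pool.Agent.H789R2.AN Pool.Agent.Y330.F

/-- A character without dense image takes commensurable values. -/
theorem rat_of_not_dense {G : Type*} [AddCommGroup G] (f : G →+ ℝ) (hnd : ¬ Dense (range f))
    {a a' : G} (ha : 0 < f a) (ha' : f a' < 0) :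
    ∃ m m' : ℕ, 1 ≤ m ∧ 1 ≤ m' ∧ f (m • a + m' • a') = 0 := by
  rcases AddSubgroup.dense_or_cyclic f.range with h | ⟨θ, hθ⟩
  · rw [AddMonoidHom.coe_range] at h
    exact absurd h hnd
  have h1 : f a ∈ AddSubgroup.closure {θ} := by rw [← hθ]; exact ⟨a, rfl⟩
  have h2 : f a' ∈ AddSubgroup.closure {θ} := by rw [← hθ]; exact ⟨a', rfl⟩
  obtain ⟨k, hk⟩ := AddSubgroup.mem_closure_singleton.mp h1
  obtain ⟨l, hl⟩ := AddSubgroup.mem_closure_singleton.mp h2
  rw [zsmul_eq_mul] at hk hl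
  have hk0 : k ≠ 0 := by
    rintro rfl
    rw [Int.cast_zero, zero_mul] at hk
    linarith
  have hl0 : l ≠ 0 := by
    rintro rfl
    rw [Int.cast_zero, zero_mul] at hl
    linarith
  refine ⟨l.natAbs, k.natAbs, Int.natAbs_pos.mpr hl0, Int.natAbs_pos.mpr hk0, ?_⟩
  rw [map_add, map_nsmul, map_nsmul, nsmul_eq_mul, nsmul_eq_mul, Nat.cast_natAbs,
    Nat.cast_natAbs, Int.cast_abs, Int.cast_abs, ← hk, ← hl]
  have h3 : (k : ℝ) * l < 0 := by
    by_contra hcon
    push Not at hcon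
    have h4 : 0 ≤ ((k : ℝ) * θ) * (l * θ) := by
      have : ((k : ℝ) * θ) * (l * θ) = (k * l) * θ ^ 2 := by ring
      rw [this]
      positivity
    rw [hk, hl] at h4
    nlinarith
  have h5 : |(l : ℝ)| * k + |(k : ℝ)| * l = 0 := by
    rcases lt_trichotomy (k : ℝ) 0 with h | h | h
    · have hl' : (0 : ℝ) < l := by
        by_contra hcon
        push Not at hcon
        nlinarith
      rw [abs_of_neg h, abs_of_pos hl']
      ring
    · rw [h, zero_mul] at h3
      exact absurd h3 (lt_irrefl _)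
    · have hl' : (l : ℝ) < 0 := by
        by_contra hcon
        push Not at hcon
        nlinarith
      rw [abs_of_pos h, abs_of_neg hl']
      ring
  calc |(l : ℝ)| * (k * θ) + |(k : ℝ)| * (l * θ) = (|(l : ℝ)| * k + |(k : ℝ)| * l) * θ := by ring
    _ = 0 := by rw [h5, zero_mul]

section sa

variable {E₀ : Type*} [NormedAddCommGroup E₀] [NormedSpace ℝ E₀] [FiniteDimensional ℝ E₀]
  {M : Type*} [MetricSpace M] [CompactSpace M] [ChartedSpace E₀ M] [IsManifold 𝓘(ℝ, E₀) 2 M]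
  {V : Type*} [NormedAddCommGroup V] [InnerProductSpace ℝ V] {G J : Type*} [AddCommGroup G]

variable {e : M → V} {L : M → V →ₗ[ℝ] E₀} {α : G → Diffeomorph 𝓘(ℝ, E₀) 𝓘(ℝ, E₀) M M 1}
  {χ : J → G →+ ℝ} {F : J → ∀ x : M, Submodule ℝ (TangentSpace 𝓘(ℝ, E₀) x)} {ι : Type*}
  {el : ι → G} {n : ι → ℕ} {S : ι → HypSys M V}

/-- **Flips preserve the total attractor.** -/
theorem flip_tot0 [Finite J] [Nonempty M] [FiniteDimensional ℝ V] (H : RS e L α χ F el n S)
    (hpair : ∀ i j, ∀ c : ℝ, 0 < c → (∀ g, χ i g = -c * χ j g) →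
      (∀ x, Module.finrank ℝ (F i x) = 1) ∧
      ∀ b, (∀ l, χ l b ≠ 0) → χ i b < 0 → ∀ p, α b p = p → ∀ v ∈ cF e F i p, v ≠ 0 →
        ∀ r : ℝ, BB e L (α b) p v = r • v → |r| < 1)
    {r r' : ι} (hfl : Flip χ (el r) (el r')) : Tot (S r).g = Tot (S r').g := by
  obtain ⟨i, j, ⟨c, hc, hcg⟩, hia, hib, hja, hjb, hrest⟩ := hfl
  have hcg' : ∀ g, χ j g = -(1 / c) * χ i g := fun g => by
    rw [hcg g]
    field_simp
  obtain ⟨hi1, his⟩ := hpair i j c hc hcg
  obtain ⟨hj1, hjs⟩ := hpair j i (1 / c) (by positivity) hcg'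
  have hfd : FD (fun g => (α g).toHomeomorph) e
      (fun x => LinearMap.range (dm E₀ e x).toLinearMap) (fun g => BB e L (α g))
      (S r) (S r') (n r • el r) (n r' • el r') (cF e F j) (cF e F i) := {
    sa := H.sa
    hg := H.gact r
    hg' := H.gact r'
    he := H.hSe r
    he' := H.hSe r'
    hT := H.hT r
    hT' := H.hT r'
    hD := fun x v _ => by rw [H.Dact]
    hDi := fun x v _ => by rw [H.Dact']
    hD' := fun x v _ => by rw [H.Dact]
    hDi' := fun x v _ => by rw [H.Dact']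
    m1 := H.cF_neg r hja
    m2 := H.cF_pos r' hjb
    p1 := H.cF_pos r hia
    p2 := H.cF_neg r' hib
    s1 := H.splitU r r' j fun l hl => by
      by_cases hlj : l = j
      · exact Or.inl hlj
      by_cases hli : l = i
      · subst hli; linarith
      exact Or.inr ((hrest l hli hlj).mpr hl)
    s2 := H.splitS r r' i fun l hl => by
      by_cases hli : l = i
      · exact Or.inl hli
      by_cases hlj : l = j
      · subst hlj; linarith
      refine Or.inr (lt_of_le_of_ne (not_lt.mp fun h => ?_) (H.reg r l))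
      linarith [(hrest l hli hlj).mp h]
    s3 := H.splitU r' r i fun l hl => by
      by_cases hli : l = i
      · exact Or.inl hli
      by_cases hlj : l = j
      · subst hlj; linarith
      exact Or.inr ((hrest l hli hlj).mp hl)
    s4 := H.splitS r' r j fun l hl => by
      by_cases hlj : l = j
      · exact Or.inl hlj
      by_cases hli : l = i
      · subst hli; linarith
      refine Or.inr (lt_of_le_of_ne (not_lt.mp fun h => ?_) (H.reg r' l))
      linarith [(hrest l hli hlj).mpr h]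
    lm := H.cF_line hj1
    lp := H.cF_line hi1
    im := fun g x v hv => H.cF_inv j g x v hv
    ip := fun g x v hv => H.cF_inv i g x v hv }
  have hreg : ∀ (r : ι) l, χ l (n r • el r) ≠ 0 := by
    intro r l
    rw [map_nsmul, nsmul_eq_mul]
    have h1 : (n r : ℝ) ≠ 0 := by
      have := H.hn r
      positivity
    exact mul_ne_zero h1 (H.reg r l)
  have hnpos : ∀ r : ι, (0 : ℝ) < n r := fun r => by
    have := H.hn r
    positivity
  have hfa : 0 < (-χ j) (n r • el r) := by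
    show 0 < -(χ j (n r • el r))
    rw [map_nsmul, nsmul_eq_mul]
    nlinarith [mul_neg_of_pos_of_neg (hnpos r) hja]
  have hfa' : (-χ j) (n r' • el r') < 0 := by
    show -(χ j (n r' • el r')) < 0
    rw [map_nsmul, nsmul_eq_mul]
    nlinarith [mul_pos (hnpos r') hjb]
  rw [H.gact r, H.gact r']
  by_cases hd : Dense (range (-χ j))
  · have hsg : SG χ (fun g => (α g).toHomeomorph) (fun g => BB e L (α g)) (cF e F j) (cF e F i)
        (-χ j) (n r • el r) (n r' • el r') := {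
      ra := hreg r
      ra' := hreg r'
      fa := hfa
      fa' := hfa'
      dense := hd
      cm := fun b hb hfb => hjs b hb (by
        have h' : 0 < -(χ j b) := hfb
        linarith)
      cp := fun b hb hfb => his b hb (by
        have h' : -(χ j b) < 0 := hfb
        rw [hcg b]
        nlinarith) }
    exact hfd.tot_eq' hsg
  · have hsg : SG0 χ (fun g => (α g).toHomeomorph) (fun g => BB e L (α g)) (cF e F j) (cF e F i)
        (-χ j) (n r • el r) (n r' • el r') := {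
      ra := hreg r
      ra' := hreg r'
      fa := hfa
      fa' := hfa'
      rat := rat_of_not_dense _ hd hfa hfa'
      cm := fun b hb hfb => hjs b hb (by
        have h' : 0 < -(χ j b) := hfb
        linarith)
      cp := fun b hb hfb => his b hb (by
        have h' : -(χ j b) < 0 := hfb
        rw [hcg b]
        nlinarith) }
    exact tot_eq0 (act := fun g => (α g).toHomeomorph) (a := n r • el r) (a' := n r' • el r') hfd hsg

/-- **All systems are transitive.** -/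
theorem all_trans0 [Finite J] [ConnectedSpace M] [FiniteDimensional ℝ V]
    (H : RS e L α χ F el n S)
    (hW : ∀ a, (∀ l, χ l a ≠ 0) → ∃ r, ∀ l, 0 < χ l a * χ l (el r))
    (hpair : ∀ i j, ∀ c : ℝ, 0 < c → (∀ g, χ i g = -c * χ j g) →
      (∀ x, Module.finrank ℝ (F i x) = 1) ∧
      ∀ b, (∀ l, χ l b ≠ 0) → χ i b < 0 → ∀ p, α b p = p → ∀ v ∈ cF e F i p, v ≠ 0 →
        ∀ r : ℝ, BB e L (α b) p v = r • v → |r| < 1)
    (hpair' : ∀ i j, ∀ c : ℝ, 0 < c → (∀ g, χ i g = -c * χ j g) →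
      ∀ k, ∀ c' : ℝ, 0 < c' → (∀ g, χ k g = c' * χ i g) → k = i) (r₀ : ι)
    (U W : Set M) (hU : IsOpen U) (hUn : U.Nonempty) (hV : IsOpen W) (hVn : W.Nonempty) :
    ∃ k : ℕ, ((S r₀).g^[k] '' U ∩ W).Nonempty := by
  have hW' : ∀ a : {a : G // ∀ l, χ l a ≠ 0}, ∃ r, ∀ l, 0 < χ l a.1 * χ l (el r) :=
    fun a => hW a.1 a.2
  choose ρ hρ using hW'
  have hp1 : ∀ a l, 0 < χ l (a : {a : G // ∀ l, χ l a ≠ 0}).1 → 0 < χ l (el (ρ a)) :=
    fun a l h => pos_of_mul_pos_left' h (hρ a l)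
  have hp2 : ∀ a l, 0 < χ l (el (ρ a)) → 0 < χ l (a : {a : G // ∀ l, χ l a ≠ 0}).1 :=
    fun a l h => pos_of_mul_pos_left' h (by rw [mul_comm]; exact hρ a l)
  have hn1 : ∀ a l, χ l (a : {a : G // ∀ l, χ l a ≠ 0}).1 < 0 → χ l (el (ρ a)) < 0 := by
    intro a l h
    have := hρ a l
    by_contra hcon
    push Not at hcon
    nlinarith
  have h1 : ∀ a b : {a : G // ∀ l, χ l a ≠ 0}, Tot (S (ρ a)).g = Tot (S (ρ b)).g := by
    intro a b
    have h := reg_conn' χ hpair' a b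
    induction h with
    | rel a b h =>
      rcases h with h | ⟨i, j, hij, h1, h2, h3, h4, h5⟩
      · exact H.nest_tot fun l hl => hp1 b l (h l (hp2 a l hl))
      · refine flip_tot0 H hpair ⟨i, j, hij, hp1 a i h1, hn1 b i h2, hn1 a j h3, hp1 b j h4,
          fun l hli hlj => ⟨fun hl => hp1 b l ((h5 l hli hlj).mp (hp2 a l hl)),
            fun hl => hp1 a l ((h5 l hli hlj).mpr (hp2 b l hl))⟩⟩
    | refl r => rfl
    | symm i j _ ih => exact ih.symm
    | trans i j k _ _ ih1 ih2 => exact ih1.trans ih2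
  have h2 : ∀ r, Tot (S r).g = Tot (S (ρ ⟨el r, H.reg r⟩)).g := fun r =>
    H.nest_tot fun l hl => hp1 ⟨el r, H.reg r⟩ l hl
  have heq : ∀ r r', Tot (S r).g = Tot (S r').g := fun r r' => by
    rw [h2 r, h2 r']
    exact h1 _ _
  have hLP : ∀ r, ∃ c, LP (S r).g c := fun r => exists_LP (S r)
  choose c hc using hLP
  have hT : Tot (S r₀).g = univ := by
    have h1 : ∀ j, IsAtt (S j).g (Tot (S r₀).g) := fun j => by
      rw [heq r₀ j]
      exact (tot_att (φ := (S j).g) (hc j) (fun _ => rfl)).1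
    refine eq_univ_of_span S e (fun i x => by rw [H.hSe]) r₀ ?_ (h1 r₀).closed
      (h1 r₀).nonempty (fun j => (h1 j).sat)
    intro x
    have hna : ∀ l, χ l (-(el r₀)) ≠ 0 := fun l => by
      rw [map_neg]; exact neg_ne_zero.mpr (H.reg r₀ l)
    apply sup_le
    · refine le_trans ?_ (le_iSup (fun j => (S j).Vu x) (ρ ⟨-(el r₀), hna⟩))
      rw [H.hVs, H.hVu]
      apply Submodule.map_mono
      apply negField_le
      intro l hl
      apply hp1 ⟨-(el r₀), hna⟩ l
      show 0 < χ l (-(el r₀))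
      rw [map_neg]
      have hl' : χ l (el r₀) < 0 := hl
      linarith
    · exact le_iSup (fun j => (S j).Vu x) r₀
  exact transitive_of_unique (hc r₀) (unique_att (hc r₀) hT) U W hU hUn hV hVn

end sa

section main

variable {E : Type*} [NormedAddCommGroup E] [NormedSpace ℝ E] [FiniteDimensional ℝ E]
  {M : Type*} [TopologicalSpace M] [T2Space M] [CompactSpace M] [ConnectedSpace M]
  [ChartedSpace E M] [IsManifold 𝓘(ℝ, E) ∞ M]

/-- **Main theorem.** -/
theorem paired_main0 {G J : Type*} [AddCommGroup G] [Finite J]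
    (α : G → Diffeomorph 𝓘(ℝ, E) 𝓘(ℝ, E) M M 1)
    (hα2 : ∀ g, ContMDiff 𝓘(ℝ, E) 𝓘(ℝ, E) 2 (α g)) (hα : ∀ a b x, α (a + b) x = α a (α b x))
    (χ : J → G →+ ℝ) (F : J → ∀ x : M, Submodule ℝ (TangentSpace 𝓘(ℝ, E) x))
    (hF : ∀ a j, InvariantField (α a) (F j))
    (hpair : ∀ i j, ∀ c : ℝ, 0 < c → (∀ g, χ i g = -c * χ j g) →
      (∀ x, Module.finrank ℝ (F i x) = 1) ∧ SignCondition α χ F i ∧
      ∀ k, ∀ c' : ℝ, 0 < c' → (∀ g, χ k g = c' * χ i g) → k = i)
    (hW : ∀ a, (∀ l, χ l a ≠ 0) → ∃ b, (∀ l, 0 < χ l a * χ l b) ∧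
      IsAnosov (α b) (negField χ F b) (posField χ F b))
    (a : G) (ha : ∀ l, χ l a ≠ 0) (hA : IsAnosov (α a) (negField χ F a) (posField χ F a)) :
    TopTransitive (α a) := by
  obtain ⟨m, e, he, hemb, hinj⟩ := exists_embedding_euclidean_of_compact (I := 𝓘(ℝ, E)) (M := M)
  let _ : MetricSpace M := hemb.isEmbedding.comapMetricSpace e
  have hiso : ∀ x y : M, dist x y = ‖e x - e y‖ := fun x y => dist_eq_norm (e x) (e y)
  have he2 : ContMDiff 𝓘(ℝ, E) (𝓡 m) 2 e := he.of_le (by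
    have : (2 : WithTop ℕ∞) = ((2 : ℕ∞) : WithTop ℕ∞) := rfl
    rw [this]
    exact_mod_cast le_top)
  have he1 : ContMDiff 𝓘(ℝ, E) (𝓡 m) 1 e := he2.of_le (by norm_num)
  have hleft : ∀ x, ∃ L : EuclideanSpace ℝ (Fin m) →ₗ[ℝ] E, ∀ v, L (dm E e x v) = v := by
    intro x
    obtain ⟨L, hL⟩ := LinearMap.exists_leftInverse_of_injective (dm E e x).toLinearMap
      (LinearMap.ker_eq_bot.mpr (hinj x))
    exact ⟨L, fun v => LinearMap.congr_fun hL v⟩
  choose L hL using hleft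
  have hsys := fun r : {b : G // (∀ l, χ l b ≠ 0) ∧
      IsAnosov (α b) (negField χ F b) (posField χ F b)} =>
    exists_sys2 hiso he1 hinj hL (α r.1) (negField χ F r.1) (posField χ F r.1) r.2.2
  choose n S hn hg hSe hVs hVu hD hD' using hsys
  have H : RS e L α χ F (fun r : {b : G // (∀ l, χ l b ≠ 0) ∧
      IsAnosov (α b) (negField χ F b) (posField χ F b)} => r.1) n S := {
    isom := hiso
    he := he2
    hinj := hinj
    hL := hL
    hα2 := hα2
    hα := hα
    hF := hF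
    reg := fun r => r.2.1
    hn := hn
    hg := hg
    hSe := hSe
    hVs := hVs
    hVu := hVu
    hD := hD
    hD' := hD'
    compl := fun r => r.2.2.isCompl }
  intro U V hU hUn hV hVn
  obtain ⟨k, hk⟩ := all_trans0 H (by
    intro a ha
    obtain ⟨b, hb1, hb2⟩ := hW a ha
    exact ⟨⟨b, fun l h => by
      have := hb1 l
      rw [h, mul_zero] at this
      exact lt_irrefl _ this, hb2⟩, hb1⟩) (by
    intro i j c hc hcg
    obtain ⟨h1, ⟨N, hN, h3⟩, -⟩ := hpair i j c hc hcg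
    refine ⟨h1, ?_⟩
    rintro b hb hib p hp _ ⟨v, hv, rfl⟩ hv0 r hr
    have hr' : BB e L (α b) p (dm E e p v) = r • dm E e p v := hr
    rw [BB_apply e hL] at hr'
    have hv0' : v ≠ 0 := by
      rintro rfl
      exact hv0 (map_zero _)
    have h4 := h3 b hb hib p hp v hv hv0'
    have h5 : dg E (α b) p v = r • v := by
      apply hinj p
      have h6 : dm E e (α b p) (dg E (α b) p v) = dm E e p (dg E (α b) p v) := by
        rw [hp]
      exact (h6.symm.trans hr').trans ((dm E e p).map_smul r v).symm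
    have h7 : N (tangentMap 𝓘(ℝ, E) 𝓘(ℝ, E) (α b) ⟨p, v⟩) = |r| * N ⟨p, v⟩ := by
      have h8 : tangentMap 𝓘(ℝ, E) 𝓘(ℝ, E) (α b) ⟨p, v⟩ = ⟨p, r • v⟩ := by
        have h9 : tangentMap 𝓘(ℝ, E) 𝓘(ℝ, E) (α b) ⟨p, v⟩ =
            (⟨α b p, dg E (α b) p v⟩ : TangentBundle 𝓘(ℝ, E) M) := rfl
        rw [h9, h5, hp]
      rw [h8]
      exact hN.smul p r v
    rw [h7] at h4
    have h10 : 0 < N ⟨p, v⟩ := hN.pos p v hv0'
    by_contra hcon
    push Not at hcon
    nlinarith) (fun i j c hc hcg => (hpair i j c hc hcg).2.2) ⟨a, ha, hA⟩ U V hU hUn hV hVn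
  refine ⟨n ⟨a, ha, hA⟩ * k, ?_⟩
  have h1 : (S ⟨a, ha, hA⟩).g^[k] = (α a)^[n ⟨a, ha, hA⟩ * k] := by
    rw [Function.iterate_mul]
    congr 1
    funext x
    rw [hg]
    rfl
  rw [h1] at hk
  exact hk


/-- Version for totally Anosov actions. -/
theorem paired_totally0 {G J : Type*} [AddCommGroup G] [Finite J]
    (α : G → Diffeomorph 𝓘(ℝ, E) 𝓘(ℝ, E) M M 1)
    (hα2 : ∀ g, ContMDiff 𝓘(ℝ, E) 𝓘(ℝ, E) 2 (α g)) (hα : ∀ a b x, α (a + b) x = α a (α b x))
    (χ : J → G →+ ℝ) (F : J → ∀ x : M, Submodule ℝ (TangentSpace 𝓘(ℝ, E) x))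
    (hF : ∀ a j, InvariantField (α a) (F j))
    (hpair : ∀ i j, ∀ c : ℝ, 0 < c → (∀ g, χ i g = -c * χ j g) →
      (∀ x, Module.finrank ℝ (F i x) = 1) ∧
      ∀ k, ∀ c' : ℝ, 0 < c' → (∀ g, χ k g = c' * χ i g) → k = i)
    (hA : ∀ a, (∀ l, χ l a ≠ 0) → IsAnosov (α a) (negField χ F a) (posField χ F a))
    (a : G) (ha : ∀ l, χ l a ≠ 0) : TopTransitive (α a) := by
  refine paired_main0 α hα2 hα χ F hF ?_ (fun a ha => ⟨a, fun l => ?_, hA a ha⟩) a ha (hA a ha)
  · intro i j c hc hcg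
    obtain ⟨h1, h3⟩ := hpair i j c hc hcg
    exact ⟨h1, sign_of_anosov α χ F hF i h1 hA a ha, h3⟩
  · exact mul_self_pos.mpr (ha l)

end main

end Pool.Agent.Y330.E
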